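import Mathlib

/-!
# Sums over arrays: the four-vector of a bivector
-/

open Finset

noncomputable section

namespace Pool.Agent.H85.SK

variable {ι : Type*} [Fintype ι] {m : ℝ} {R O : ι → ι → ℝ}

/-- the four-vector `m (R_lk R_ij + R_li R_jk + R_lj R_ki)` -/
def qq (m : ℝ) (R : ι → ι → ℝ) (l k i j : ι) : ℝ :=
  m * (R l k * R i j + R l i * R j k + R l j * R k i)

omit [Fintype ι] in
lemma qq_cyc (l k i j : ι) : qq m R l k i j = qq m R l i j k := by
  simp only [qq]; ring

omit [Fintype ι] in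
lemma qq_swap (hR : ∀ i j, R i j = - R j i) (l k i j : ι) : qq m R l k i j = - qq m R k l i j := by
  simp only [qq]
  rw [hR k l, hR k j, hR j l]
  ring

omit [Fintype ι] in
lemma qq_swap' (hR : ∀ i j, R i j = - R j i) (l k i j : ι) : qq m R l k i j = - qq m R l k j i := by
  simp only [qq]
  rw [hR j i, hR i k, hR k j]
  ring

/-- contraction with the inverse -/
lemma contr [DecidableEq ι] (hR : ∀ i j, R i j = - R j i) (hO : ∀ i j, O i j = - O j i)
    (hinv : ∀ i j, ∑ l, R i l * O l j = if i = j then 1 else 0) (i j : ι) :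
    ∑ l, ∑ k, O l k * qq m R l k i j = -(((Fintype.card ι : ℝ) - 2) * (m * R i j)) := by
  have e1 : ∑ l, ∑ k, O l k * R l k = - (Fintype.card ι : ℝ) := by
    have : ∑ l, ∑ k, O l k * R l k = - ∑ l, ∑ k, R l k * O k l := by
      rw [← sum_neg_distrib]
      refine sum_congr rfl fun l _ => ?_
      rw [← sum_neg_distrib]
      refine sum_congr rfl fun k _ => ?_
      rw [hO l k]; ring
    rw [this]
    simp [hinv]
  have e2 : ∀ a, ∀ k, ∑ l, O l k * R l a = - if a = k then 1 else 0 := by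
    intro a k
    rw [← hinv a k, ← sum_neg_distrib]
    refine sum_congr rfl fun l _ => ?_
    rw [hR l a]; ring
  have e3 : ∑ l, ∑ k, O l k * (R l i * R j k) = R i j := by
    rw [sum_comm]
    have : ∀ k, ∑ l, O l k * (R l i * R j k) = (- if i = k then 1 else 0) * R j k := by
      intro k
      rw [← e2, sum_mul]
      refine sum_congr rfl fun l _ => by ring
    simp only [this, neg_mul, sum_neg_distrib, ite_mul, one_mul, zero_mul, sum_ite_eq, mem_univ,
      if_true]
    rw [hR j i]; ring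
  have e4 : ∑ l, ∑ k, O l k * (R l j * R k i) = R i j := by
    rw [sum_comm]
    have : ∀ k, ∑ l, O l k * (R l j * R k i) = (- if j = k then 1 else 0) * R k i := by
      intro k
      rw [← e2, sum_mul]
      refine sum_congr rfl fun l _ => by ring
    simp only [this, neg_mul, sum_neg_distrib, ite_mul, one_mul, zero_mul, sum_ite_eq, mem_univ,
      if_true]
    rw [hR j i]; ring
  have e5 : ∑ l, ∑ k, O l k * qq m R l k i j = m * ((∑ l, ∑ k, O l k * R l k) * R i j +
      ∑ l, ∑ k, O l k * (R l i * R j k) + ∑ l, ∑ k, O l k * (R l j * R k i)) := by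
    rw [sum_mul, ← sum_add_distrib, ← sum_add_distrib, mul_sum]
    refine sum_congr rfl fun l _ => ?_
    rw [sum_mul, ← sum_add_distrib, ← sum_add_distrib, mul_sum]
    refine sum_congr rfl fun k _ => ?_
    simp only [qq]; ring
  rw [e5, e1, e3, e4]
  ring

/-- cyclic sums -/
lemma sum_cyc (f : ι → ι → ι → ℝ) : ∑ k, ∑ i, ∑ j, f i j k = ∑ k, ∑ i, ∑ j, f k i j := by
  calc ∑ k, ∑ i, ∑ j, f i j k = ∑ i, ∑ k, ∑ j, f i j k := sum_comm
    _ = ∑ i, ∑ j, ∑ k, f i j k := sum_congr rfl fun i _ => sum_comm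
    _ = _ := rfl

lemma sum_cyc' (f : ι → ι → ι → ℝ) : ∑ k, ∑ i, ∑ j, f j k i = ∑ k, ∑ i, ∑ j, f k i j :=
  (sum_cyc fun a b c => f c a b).symm

lemma sum_cyc4 (f : ι → ι → ι → ι → ℝ) :
    ∑ l, ∑ k, ∑ i, ∑ j, f j l k i = ∑ l, ∑ k, ∑ i, ∑ j, f l k i j := by
  calc ∑ l, ∑ k, ∑ i, ∑ j, f j l k i = ∑ l, ∑ k, ∑ j, ∑ i, f j l k i :=
        sum_congr rfl fun l _ => sum_congr rfl fun k _ => sum_comm
    _ = ∑ l, ∑ j, ∑ k, ∑ i, f j l k i := sum_congr rfl fun l _ => sum_comm
    _ = ∑ j, ∑ l, ∑ k, ∑ i, f j l k i := sum_comm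
    _ = _ := rfl

/-- contraction with a form which is alternating -/
lemma sum_alt {G H : ι → ι → ι → ℝ} (hG : ∀ k i j, G k i j = G i j k) :
    ∑ k, ∑ i, ∑ j, G k i j * (H k i j + H i j k + H j k i) = 3 * ∑ k, ∑ i, ∑ j, G k i j * H k i j := by
  have h1 : ∑ k, ∑ i, ∑ j, G k i j * H i j k = ∑ k, ∑ i, ∑ j, G k i j * H k i j := by
    rw [← sum_cyc fun k i j => G k i j * H k i j]
    refine sum_congr rfl fun k _ => sum_congr rfl fun i _ => sum_congr rfl fun j _ => ?_
    rw [hG k i j]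
  have h2 : ∑ k, ∑ i, ∑ j, G k i j * H j k i = ∑ k, ∑ i, ∑ j, G k i j * H k i j := by
    rw [← sum_cyc' fun k i j => G k i j * H k i j]
    refine sum_congr rfl fun k _ => sum_congr rfl fun i _ => sum_congr rfl fun j _ => ?_
    rw [hG k i j, hG i j k]
  have h3 : ∑ k, ∑ i, ∑ j, G k i j * (H k i j + H i j k + H j k i) =
      ∑ k, ∑ i, ∑ j, G k i j * H k i j + ∑ k, ∑ i, ∑ j, G k i j * H i j k +
        ∑ k, ∑ i, ∑ j, G k i j * H j k i := by
    simp only [← sum_add_distrib]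
    refine sum_congr rfl fun k _ => sum_congr rfl fun i _ => sum_congr rfl fun j _ => by ring
  rw [h3, h1, h2]
  ring

/-- contraction of the four-vector with a form which is invariant under cyclic permutations -/
lemma sum_qq (l : ι) {H : ι → ι → ι → ℝ} (hH : ∀ k i j, H k i j = H i j k) :
    ∑ k, ∑ i, ∑ j, qq m R l k i j * H k i j = 3 * (m * ∑ k, ∑ i, ∑ j, R l k * R i j * H k i j) := by
  have h1 := sum_alt (G := H) (H := fun k i j => R l k * R i j) hH
  have h2 : ∑ k, ∑ i, ∑ j, qq m R l k i j * H k i j =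
      m * ∑ k, ∑ i, ∑ j, H k i j * (R l k * R i j + R l i * R j k + R l j * R k i) := by
    simp only [mul_sum]
    refine sum_congr rfl fun k _ => sum_congr rfl fun i _ => sum_congr rfl fun j _ => ?_
    simp only [qq]; ring
  rw [h2, h1]
  have h3 : ∑ k, ∑ i, ∑ j, H k i j * (R l k * R i j) = ∑ k, ∑ i, ∑ j, R l k * R i j * H k i j :=
    sum_congr rfl fun k _ => sum_congr rfl fun i _ => sum_congr rfl fun j _ => by ring
  rw [h3]; ring

/-- the exterior derivative -/
lemma sum_four (hR : ∀ i j, R i j = - R j i) (F : ι → ι → ι → ι → ℝ) :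
    ∑ l, ∑ k, ∑ i, ∑ j, qq m R l k i j * (F l k i j - F k l i j + F i l k j - F j l k i) =
      4 * ∑ l, ∑ k, ∑ i, ∑ j, qq m R l k i j * F l k i j := by
  have s1 : ∑ l, ∑ k, ∑ i, ∑ j, qq m R l k i j * F k l i j =
      - ∑ l, ∑ k, ∑ i, ∑ j, qq m R l k i j * F l k i j := by
    rw [sum_comm, ← sum_neg_distrib]
    refine sum_congr rfl fun l _ => ?_
    rw [← sum_neg_distrib]
    refine sum_congr rfl fun k _ => ?_
    rw [← sum_neg_distrib]
    refine sum_congr rfl fun i _ => ?_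
    rw [← sum_neg_distrib]
    refine sum_congr rfl fun j _ => ?_
    rw [qq_swap hR k l]; ring
  have s2 : ∑ l, ∑ k, ∑ i, ∑ j, qq m R l k i j * F i l k j =
      ∑ l, ∑ k, ∑ i, ∑ j, qq m R l k i j * F l k i j := by
    rw [← sum_cyc' fun l k i => ∑ j, qq m R l k i j * F l k i j]
    refine sum_congr rfl fun l _ => sum_congr rfl fun k _ => sum_congr rfl fun i _ =>
      sum_congr rfl fun j _ => ?_
    rw [qq_swap hR i l, qq_cyc l i k j, qq_swap' hR l k j i, neg_neg]
  have s3 : ∑ l, ∑ k, ∑ i, ∑ j, qq m R l k i j * F j l k i =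
      - ∑ l, ∑ k, ∑ i, ∑ j, qq m R l k i j * F l k i j := by
    rw [← sum_cyc4 fun l k i j => qq m R l k i j * F l k i j, ← sum_neg_distrib]
    refine sum_congr rfl fun l _ => ?_
    rw [← sum_neg_distrib]
    refine sum_congr rfl fun k _ => ?_
    rw [← sum_neg_distrib]
    refine sum_congr rfl fun i _ => ?_
    rw [← sum_neg_distrib]
    refine sum_congr rfl fun j _ => ?_
    rw [qq_swap hR j l, qq_cyc l j k i]
    ring
  have s4 : ∑ l, ∑ k, ∑ i, ∑ j, qq m R l k i j * (F l k i j - F k l i j + F i l k j - F j l k i) =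
      ∑ l, ∑ k, ∑ i, ∑ j, qq m R l k i j * F l k i j - ∑ l, ∑ k, ∑ i, ∑ j, qq m R l k i j * F k l i j +
      ∑ l, ∑ k, ∑ i, ∑ j, qq m R l k i j * F i l k j - ∑ l, ∑ k, ∑ i, ∑ j, qq m R l k i j * F j l k i := by
    simp only [← sum_add_distrib, ← sum_sub_distrib]
    refine sum_congr rfl fun l _ => sum_congr rfl fun k _ => sum_congr rfl fun i _ =>
      sum_congr rfl fun j _ => by ring
  rw [s4, s1, s2, s3]
  ring

end Pool.Agent.H85.SK
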