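import Pool.Agent.H85.KA.Kae

/-!
# Kaehler metrics with a potential and hermitian metrics: definitions
-/

open Set Metric MeasureTheory Filter Topology
open scoped ContDiff NNReal RealInnerProductSpace

noncomputable section

set_option maxSynthPendingDepth 3

namespace Pool.Agent.H85.SK

open Pool.Agent.W9h56.BE Pool.Agent.W5h72.BR Pool.Agent.H85.KA

variable {E : Type*} [NormedAddCommGroup E] [InnerProductSpace ℝ E]

/-- `I` is an almost complex structure on `M` (the closed unit ball) -/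
def IsAlmostComplex (I : E → E →L[ℝ] E) : Prop :=
  ContDiff ℝ ∞ I ∧ ∀ x ∈ closedBall (0 : E) 1, ∀ v, I x (I x v) = -v

/-- the metric `g` is hermitian, that is, `I` is orthogonal for `g` -/
def IsHermitian (g : E → E →L[ℝ] E →L[ℝ] ℝ) (I : E → E →L[ℝ] E) : Prop :=
  ∀ x ∈ closedBall (0 : E) 1, ∀ v w, g x (I x v) (I x w) = g x v w

/-- the one-form `d^c ρ = - dρ ∘ I` -/
def dcFun (I : E → E →L[ℝ] E) (ρ : E → ℝ) (x : E) : E →L[ℝ] ℝ := -(fderiv ℝ ρ x).comp (I x)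

/-- the fundamental form of `g` is `dd^c ρ` on `M` -/
def IsPotential (g : E → E →L[ℝ] E →L[ℝ] ℝ) (I : E → E →L[ℝ] E) (ρ : E → ℝ) : Prop :=
  ContDiff ℝ ∞ ρ ∧ ∀ x ∈ closedBall (0 : E) 1, ∀ v w,
    fund g I x v w = fderiv ℝ (dcFun I ρ) x v w - fderiv ℝ (dcFun I ρ) x w v

/-- the exterior derivative of a two-form -/
def d2 (om : E → E →L[ℝ] E →L[ℝ] ℝ) (x u v w : E) : ℝ :=
  fderiv ℝ om x u v w + fderiv ℝ om x v w u + fderiv ℝ om x w u v

/-- the three-form `d^c ω`, that is `dω(I·, I·, I·)` -/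
def dcForm (I : E → E →L[ℝ] E) (om : E → E →L[ℝ] E →L[ℝ] ℝ) (x u v w : E) : ℝ :=
  d2 om x (I x u) (I x v) (I x w)

/-- the exterior derivative of a three-form -/
def d3 (η : E → E → E → E → ℝ) (x l k i j : E) : ℝ :=
  fderiv ℝ (fun y => η y k i j) x l - fderiv ℝ (fun y => η y l i j) x k +
    fderiv ℝ (fun y => η y l k j) x i - fderiv ℝ (fun y => η y l k i) x j

/-- the four-form `dd^c ω` of the fundamental form `ω` of the metric `g` -/
def ddc (g : E → E →L[ℝ] E →L[ℝ] ℝ) (I : E → E →L[ℝ] E) (x l k i j : E) : ℝ :=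
  d3 (dcForm I (fund g I)) x l k i j

/-- `dd^c ω ≥ 0` on `M` (on pairs of complex lines) -/
def DDCNonneg (g : E → E →L[ℝ] E →L[ℝ] ℝ) (I : E → E →L[ℝ] E) : Prop :=
  ∀ x ∈ closedBall (0 : E) 1, ∀ u v, 0 ≤ ddc g I x u (I x u) v (I x v)

/-- `dd^c ω ≤ 0` on `M` (on pairs of complex lines) -/
def DDCNonpos (g : E → E →L[ℝ] E →L[ℝ] ℝ) (I : E → E →L[ℝ] E) : Prop :=
  ∀ x ∈ closedBall (0 : E) 1, ∀ u v, ddc g I x u (I x u) v (I x v) ≤ 0

end Pool.Agent.H85.SK
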