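import Pool.Agent.H85.KA.Main

/-!
# The boundary distances determine the one-jet of a hermitian metric at the boundary
-/

open Set Metric MeasureTheory Filter Topology
open scoped ContDiff NNReal RealInnerProductSpace

noncomputable section

set_option maxSynthPendingDepth 3

namespace Pool.Agent.H85.SK

open Pool.Agent.W9h56.BE Pool.Agent.W5h72.BR Pool.Agent.H85.KA

variable {E : Type*} [NormedAddCommGroup E] [InnerProductSpace ℝ E] [FiniteDimensional ℝ E]
  {g g' : E → E →L[ℝ] E →L[ℝ] ℝ} {e L e' L' : E → E → E} {I : E → E →L[ℝ] E}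

omit [FiniteDimensional ℝ E] in
/-- two functions which agree on the sphere have the same tangential derivatives -/
lemma fderiv_tan_eq {F : Type*} [NormedAddCommGroup F] [NormedSpace ℝ F] {f f' : E → F}
    {A A' : E →L[ℝ] F} {p v : E} (hp : p ∈ sphere (0 : E) 1) (hv : inner ℝ p v = 0)
    (h1 : HasFDerivAt f A p) (h2 : HasFDerivAt f' A' p)
    (heq : ∀ q ∈ sphere (0 : E) 1, f q = f' q) : A v = A' v := by
  have hp0 := ne_zero_of_mem_sphere' hp
  have d := hasFDerivAt_proj hp0
  have e1 : HasFDerivAt (f ∘ proj) (A ∘L Dproj p) p := by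
    refine HasFDerivAt.comp p ?_ d
    rw [proj_of_mem hp]; exact h1
  have e2 : HasFDerivAt (f' ∘ proj) (A' ∘L Dproj p) p := by
    refine HasFDerivAt.comp p ?_ d
    rw [proj_of_mem hp]; exact h2
  have e3 : f ∘ proj =ᶠ[𝓝 p] f' ∘ proj := by
    filter_upwards [isOpen_ne.mem_nhds hp0] with y hy
    exact heq _ (proj_mem hy)
  have e4 := (e1.congr_of_eventuallyEq e3.symm).unique e2
  have e5 := congrArg (fun T : E →L[ℝ] F => T v) e4
  simpa only [ContinuousLinearMap.comp_apply, Dproj_apply hp hv] using e5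

omit [FiniteDimensional ℝ E] in
/-- the initial vectors of the geodesics between boundary points agree -/
lemma L_eq (h : Simple g e L) (h' : Simple g' e' L')
    (hd : ∀ p ∈ sphere (0 : E) 1, ∀ q ∈ sphere (0 : E) 1, rho g L p q = rho g' L' p q)
    (hG : ∀ p ∈ sphere (0 : E) 1, g' p = g p) {p q : E} (hp : p ∈ sphere (0 : E) 1)
    (hq : q ∈ sphere (0 : E) 1) : L' p q = L p q := by
  have hpM := mem_of_sphere hp
  have hqM := mem_of_sphere hq
  rcases eq_or_ne p q with rfl | hne
  · rw [h.L_self hpM, h'.L_self hpM]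
  have t1 : ∀ ζ, inner ℝ p ζ = 0 → g p (L' p q - L p q) ζ = 0 := by
    intro ζ hζ
    have k := fderiv_tan_eq hp hζ (h.hasFDerivAt_energy hqM hpM) (h'.hasFDerivAt_energy hqM hpM)
      (fun y hy => by
        rw [← h.rho_sq hqM, ← h'.rho_sq hqM, hd q hq y hy])
    simp only [smul_apply, smul_eq_mul] at k
    rw [hG p hp] at k
    rw [map_sub, sub_apply]
    linarith
  have t2 : g p (L' p q) (L' p q) = g p (L p q) (L p q) := by
    have := hd p hp q hq
    rw [← h.rho_sq hpM, this, h'.rho_sq hpM, hG p hp]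
  have i1 := h.L_inward hp hqM hne
  have i2 := h'.L_inward hp hqM hne
  set u := L p q with hu
  set u' := L' p q with hu'
  set c : ℝ := inner ℝ p u' / inner ℝ p u with hc
  have hc0 : 0 < c := div_pos_of_neg_of_neg i2 i1
  have hz : inner ℝ p (u' - c • u) = 0 := by
    rw [inner_sub_right, inner_smul_right, hc, div_mul_cancel₀ _ i1.ne, sub_self]
  have k1 := t1 _ hz
  have k2 : g p (u' - u) (u' + u) = 0 := by
    simp only [map_sub, map_add, sub_apply]
    have := h.symm p hpM u u'
    linarith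
  have k3 : g p (u' - u) u = 0 := by
    have k4 : g p (u' - u) (u' + u) = g p (u' - u) (u' - c • u) + (c + 1) * g p (u' - u) u := by
      simp only [map_sub, map_add, map_smul, smul_eq_mul]
      ring
    rw [k2, k1, zero_add] at k4
    have : c + 1 ≠ 0 := by positivity
    exact (mul_eq_zero.1 k4.symm).resolve_left this
  have k5 : g p (u' - u) (u' - u) = 0 := by
    have : g p (u' - u) (u' - u) = g p (u' - u) (u' + u) - 2 * g p (u' - u) u := by
      simp only [map_sub, map_add]
      ring
    rw [this, k2, k3]; ring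
  by_contra hcon
  exact (h.pos p hpM _ (sub_ne_zero.2 hcon)).ne' k5

/-- the great circle through `p` in the direction `v` -/
def circ (p v : E) (s : ℝ) : E := proj (p + s • v)

omit [FiniteDimensional ℝ E] in
lemma circ_ne {p v : E} (hp : p ∈ sphere (0 : E) 1) (hv : inner ℝ p v = 0) (s : ℝ) :
    p + s • v ≠ 0 := by
  intro h0
  have : inner ℝ p (p + s • v) = (1 : ℝ) := by
    rw [inner_add_right, inner_smul_right, hv, real_inner_self_eq_norm_sq, norm_of_sphere hp]
    norm_num
  rw [h0] at this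
  simp at this

omit [FiniteDimensional ℝ E] in
lemma circ_mem {p v : E} (hp : p ∈ sphere (0 : E) 1) (hv : inner ℝ p v = 0) (s : ℝ) :
    circ p v s ∈ sphere (0 : E) 1 := proj_mem (circ_ne hp hv s)

omit [FiniteDimensional ℝ E] in
lemma circ_zero {p v : E} (hp : p ∈ sphere (0 : E) 1) : circ p v 0 = p := by
  simp [circ, proj_of_mem hp]

omit [FiniteDimensional ℝ E] in
lemma contDiff_circ {p v : E} (hp : p ∈ sphere (0 : E) 1) (hv : inner ℝ p v = 0) :
    ContDiff ℝ ∞ (circ p v) := by
  rw [contDiff_iff_contDiffAt]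
  intro s
  have h1 : ContDiffAt ℝ ∞ (fun s : ℝ => p + s • v) s := by fun_prop
  exact (contDiffAt_proj (circ_ne hp hv s)).comp s h1

omit [FiniteDimensional ℝ E] in
lemma deriv_circ {p v : E} (hp : p ∈ sphere (0 : E) 1) (hv : inner ℝ p v = 0) :
    HasDerivAt (circ p v) v 0 := by
  have h1 : HasDerivAt (fun s : ℝ => p + s • v) v 0 := by
    simpa using ((hasDerivAt_id (0 : ℝ)).smul_const v).const_add p
  have h2 := HasFDerivAt.comp_hasDerivAt_of_eq (f := fun s : ℝ => p + s • v)
    (l := proj (E := E)) (0 : ℝ) (hasFDerivAt_proj (ne_zero_of_mem_sphere' hp)) h1 (by simp)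
  rw [Dproj_apply hp hv] at h2
  exact h2

/-- the curve of initial vectors -/
def lcur (L : E → E → E) (p v : E) (s : ℝ) : E := L p (circ p v s)

omit [FiniteDimensional ℝ E] in
lemma lcur_zero (h : Simple g e L) {p v : E} (hp : p ∈ sphere (0 : E) 1) : lcur L p v 0 = 0 := by
  rw [lcur, circ_zero hp, h.L_self (mem_of_sphere hp)]

omit [FiniteDimensional ℝ E] in
lemma contDiff_lcur (h : Simple g e L) {p v : E} (hp : p ∈ sphere (0 : E) 1)
    (hv : inner ℝ p v = 0) : ContDiff ℝ ∞ (lcur L p v) :=
  (h.L_smooth_right p).comp (contDiff_circ hp hv)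

omit [FiniteDimensional ℝ E] in
lemma deriv_lcur (h : Simple g e L) {p v : E} (hp : p ∈ sphere (0 : E) 1)
    (hv : inner ℝ p v = 0) : HasDerivAt (lcur L p v) v 0 := by
  have := HasFDerivAt.comp_hasDerivAt_of_eq (f := circ p v) (l := L p) (0 : ℝ)
    (h.hasFDerivAt_L p p) (deriv_circ hp hv) (circ_zero hp).symm
  rwa [h.D_id (mem_of_sphere hp)] at this

omit [FiniteDimensional ℝ E] in
lemma De_zero (h : Simple g e L) {p : E} (hp : p ∈ sphere (0 : E) 1) (w : E) :
    fderiv ℝ (e p) 0 w = w := by
  have hpM := mem_of_sphere hp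
  have h1 := h.D_comp hpM hpM
  rw [h.L_self hpM] at h1
  have h2 := congrArg (fun f : E →L[ℝ] E => f w) h1
  simpa only [ContinuousLinearMap.comp_apply, h.D_id hpM, ContinuousLinearMap.id_apply] using h2

/-- the second derivatives of the exponential maps agree in the tangent directions -/
lemma D2e_eq (h : Simple g e L) (h' : Simple g' e' L')
    (hd : ∀ p ∈ sphere (0 : E) 1, ∀ q ∈ sphere (0 : E) 1, rho g L p q = rho g' L' p q)
    (hG : ∀ p ∈ sphere (0 : E) 1, g' p = g p) {p v : E} (hp : p ∈ sphere (0 : E) 1)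
    (hv : inner ℝ p v = 0) :
    fderiv ℝ (fderiv ℝ (e' p)) 0 v v = fderiv ℝ (fderiv ℝ (e p)) 0 v v := by
  have hpM := mem_of_sphere hp
  set F : E → E := fun w => e' p w - e p w with hF
  have hFs : ContDiff ℝ ∞ F := (h'.e_smooth_right p).sub (h.e_smooth_right p)
  set l := lcur L p v with hl
  have hls := contDiff_lcur h hp hv
  have hl' : ∀ s, l s = lcur L' p v s := fun s => (L_eq h h' hd hG hp (circ_mem hp hv s)).symm
  have hF0 : ∀ s, F (l s) = 0 := by
    intro s
    have hcM := mem_of_sphere (circ_mem hp hv s)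
    have e1 : e p (l s) = circ p v s := h.e_L hpM hcM
    have e2 : e' p (l s) = circ p v s := by rw [hl' s]; exact h'.e_L hpM hcM
    simp only [hF, e1, e2, sub_self]
  have hFd : ∀ w, HasFDerivAt F (fderiv ℝ F w) w := fun w =>
    (hFs.differentiable (by simp) w).hasFDerivAt
  have hld : ∀ s, HasDerivAt l (deriv l s) s := fun s =>
    (hls.differentiable (by simp) s).hasDerivAt
  have h1 : ∀ s, fderiv ℝ F (l s) (deriv l s) = 0 := by
    intro s
    have k1 : HasDerivAt (fun s => F (l s)) (fderiv ℝ F (l s) (deriv l s)) s :=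
      HasFDerivAt.comp_hasDerivAt (f := l) (l := F) s (hFd _) (hld s)
    have k2 : HasDerivAt (fun s => F (l s)) 0 s := by
      have : (fun s => F (l s)) = fun _ => 0 := funext hF0
      rw [this]; exact hasDerivAt_const s 0
    exact k1.unique k2
  have hFF : fderiv ℝ F = fun w => fderiv ℝ (e' p) w - fderiv ℝ (e p) w := by
    funext w
    exact ((h'.hasFDerivAt_e p w).sub (h.hasFDerivAt_e p w)).fderiv
  have hDF0 : fderiv ℝ F 0 = 0 := by
    ext w
    rw [hFF]
    simp only [sub_apply, zero_apply, De_zero h hp, De_zero h' hp, sub_self]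
  have hF1 : ContDiff ℝ ∞ (fderiv ℝ F) := hFs.fderiv_right (by simp)
  have hl0 : l 0 = 0 := lcur_zero h hp
  have hdl : deriv l 0 = v := (deriv_lcur h hp hv).deriv
  have k3 : HasDerivAt (fun s => fderiv ℝ F (l s)) (fderiv ℝ (fderiv ℝ F) 0 v) 0 := by
    have k4 : HasFDerivAt (fderiv ℝ F) (fderiv ℝ (fderiv ℝ F) 0) 0 :=
      (hF1.differentiable (by simp) 0).hasFDerivAt
    exact HasFDerivAt.comp_hasDerivAt_of_eq (f := l) (l := fderiv ℝ F) (0 : ℝ) k4
      (deriv_lcur h hp hv) hl0.symm
  have k5 := hasDerivAt_iff_tendsto_slope.1 k3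
  have k6 : Tendsto (deriv l) (𝓝[≠] 0) (𝓝 v) := by
    have : Continuous (deriv l) := hls.continuous_deriv (by simp)
    have k7 := this.tendsto 0
    rw [hdl] at k7
    exact k7.mono_left nhdsWithin_le_nhds
  have k8 : Tendsto (fun s => (slope (fun s => fderiv ℝ F (l s)) 0 s) (deriv l s)) (𝓝[≠] 0)
      (𝓝 (fderiv ℝ (fderiv ℝ F) 0 v v)) :=
    ((isBoundedBilinearMap_apply (𝕜 := ℝ) (E := E) (F := E)).continuous.tendsto
      (fderiv ℝ (fderiv ℝ F) 0 v, v)).comp (k5.prodMk_nhds k6)
  have k9 : fderiv ℝ (fderiv ℝ F) 0 v v = 0 := by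
    refine tendsto_nhds_unique k8 (tendsto_const_nhds.congr fun s => ?_)
    simp only [slope_def_module, hl0, hDF0, sub_zero, smul_apply, h1 s, smul_zero]
  have k10 : fderiv ℝ (fderiv ℝ F) 0 = fderiv ℝ (fderiv ℝ (e' p)) 0 - fderiv ℝ (fderiv ℝ (e p)) 0 := by
    rw [hFF]
    have a1 : ContDiff ℝ ∞ (fderiv ℝ (e' p)) := (h'.e_smooth_right p).fderiv_right (by simp)
    have a2 : ContDiff ℝ ∞ (fderiv ℝ (e p)) := (h.e_smooth_right p).fderiv_right (by simp)
    exact ((a1.differentiable (by simp) 0).hasFDerivAt.sub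
      (a2.differentiable (by simp) 0).hasFDerivAt).fderiv
  rw [k10] at k9
  simpa only [sub_apply, sub_eq_zero] using k9

/-- the geodesic equation at a boundary point in a tangent direction -/
lemma acc_tan (h : Simple g e L) {p v : E} (hp : p ∈ sphere (0 : E) 1) (hv : inner ℝ p v = 0) :
    IsAcc g p v (fderiv ℝ (fderiv ℝ (e p)) 0 v v) := by
  have hpM := mem_of_sphere hp
  intro z
  set B := fderiv ℝ (fderiv ℝ (e p)) 0 with hB
  set P : E → ℝ := fun w => g p (B w w) z + fderiv ℝ g p w w z - (1 / 2) * fderiv ℝ g p z w w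
    with hP
  have hPc : Continuous P := by fun_prop
  have hP2 : ∀ (c : ℝ) (w : E), P (c • w) = c ^ 2 * P w := by
    intro c w
    simp only [hP, map_smul, smul_apply, smul_eq_mul]
    ring
  have h0 : ∀ s, P (lcur L p v s) = 0 := by
    intro s
    obtain ⟨γ, u, hγ, h0, hu, h1⟩ := h.exists_geod hpM (mem_of_sphere (circ_mem hp hv s))
    have k := h.acc_eq hγ (t := 0) zero_mem01 z
    rw [h0, hu, zero_smul] at k
    simp only [hP, hB, lcur]
    linarith
  have k1 := hasDerivAt_iff_tendsto_slope.1 (deriv_lcur h hp hv)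
  have k2 : Tendsto (fun s => P (slope (lcur L p v) 0 s)) (𝓝[≠] 0) (𝓝 (P v)) :=
    (hPc.tendsto v).comp k1
  have k3 : P v = 0 := by
    refine tendsto_nhds_unique k2 (tendsto_const_nhds.congr fun s => ?_)
    simp only [slope_def_module, lcur_zero h hp, sub_zero]
    rw [hP2, h0 s, mul_zero]
  simp only [hP] at k3
  linarith

omit [FiniteDimensional ℝ E] in
/-- a function which vanishes on the closed ball has derivative zero at its points -/
lemma fderiv_zero_of_ball {F : Type*} [NormedAddCommGroup F] [NormedSpace ℝ F] {f : E → F}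
    {A : E →L[ℝ] F} {p : E} (hp : p ∈ closedBall (0 : E) 1) (h : HasFDerivAt f A p)
    (h0 : ∀ x ∈ closedBall (0 : E) 1, f x = 0) : A = 0 := by
  have hu : UniqueDiffOn ℝ (closedBall (0 : E) 1) :=
    uniqueDiffOn_convex (convex_closedBall _ _) (by
      rw [interior_closedBall _ one_ne_zero]; exact ⟨0, by simp⟩)
  have h1 : HasFDerivWithinAt f (0 : E →L[ℝ] F) (closedBall (0 : E) 1) p :=
    (hasFDerivWithinAt_const (0 : F) p _).congr (fun z hz => h0 z hz) (h0 p hp)
  exact (hu p hp).eq h.hasFDerivWithinAt h1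

/-- **the one-jets agree** -/
theorem jet_eq (h : Simple g e L) (h' : Simple g' e' L')
    (hI : ContDiff ℝ 1 I) (hsq : ∀ x ∈ closedBall (0 : E) 1, ∀ v, I x (I x v) = -v)
    (ho : ∀ x ∈ closedBall (0 : E) 1, ∀ v w, g x (I x v) (I x w) = g x v w)
    (ho' : ∀ x ∈ closedBall (0 : E) 1, ∀ v w, g' x (I x v) (I x w) = g' x v w)
    (hd : ∀ p ∈ sphere (0 : E) 1, ∀ q ∈ sphere (0 : E) 1, rho g L p q = rho g' L' p q)
    {p : E} (hp : p ∈ sphere (0 : E) 1) :
    g' p = g p ∧ fderiv ℝ g' p = fderiv ℝ g p := by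
  -- the metrics agree
  have hG : ∀ p ∈ sphere (0 : E) 1, g' p = g p := by
    intro p hp
    have hpM := mem_of_sphere hp
    ext v w
    have key := eq_of_hyper (D := g' p - g p) (A := I p) (p := p)
      (fun v w => by
        simp only [sub_apply]
        rw [h'.symm p hpM, h.symm p hpM])
      (hsq p hpM) (fun v w => by
        simp only [sub_apply]
        rw [ho' p hpM, ho p hpM]) (norm_of_sphere hp)
      (fun v w hv hw => by
        simp only [sub_apply]
        rw [h.metric_tan h' hd hp hv hw, sub_self]) v w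
    simp only [sub_apply] at key
    linarith
  refine ⟨hG p hp, ?_⟩
  have hpM := mem_of_sphere hp
  have dg : ∀ x, HasFDerivAt g (fderiv ℝ g x) x := fun x =>
    (h.smooth.differentiable (by simp) x).hasFDerivAt
  have dg' : ∀ x, HasFDerivAt g' (fderiv ℝ g' x) x := fun x =>
    (h'.smooth.differentiable (by simp) x).hasFDerivAt
  have dI : HasFDerivAt I (fderiv ℝ I p) p := (hI.differentiable (by norm_num) p).hasFDerivAt
  -- tangential derivatives
  have t1 : ∀ v, inner ℝ p v = 0 → fderiv ℝ g' p v = fderiv ℝ g p v := fun v hv =>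
    fderiv_tan_eq hp hv (dg' p) (dg p) hG
  -- the geodesic equation
  have t2 : ∀ v, inner ℝ p v = 0 → ∀ z, fderiv ℝ g' p z v v = fderiv ℝ g p z v v := by
    intro v hv z
    have a1 := acc_tan h hp hv z
    have a2 := acc_tan h' hp hv z
    rw [D2e_eq h h' hd hG hp hv, hG p hp, t1 v hv] at a2
    linarith
  -- the difference is a hermitian form for all directions
  set D : E → E → E →L[ℝ] E →L[ℝ] ℝ := fun _ z => fderiv ℝ g' p z - fderiv ℝ g p z with hD
  have hDs : ∀ z v w, (fderiv ℝ g' p z - fderiv ℝ g p z) v w =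
      (fderiv ℝ g' p z - fderiv ℝ g p z) w v := by
    intro z v w
    have k1 : HasFDerivAt (fun x => (g' x v w - g x v w) - (g' x w v - g x w v)) _ p :=
      ((((dg' p).clm_apply (hasFDerivAt_const v p)).clm_apply (hasFDerivAt_const w p)).sub
        (((dg p).clm_apply (hasFDerivAt_const v p)).clm_apply (hasFDerivAt_const w p))).sub
      ((((dg' p).clm_apply (hasFDerivAt_const w p)).clm_apply (hasFDerivAt_const v p)).sub
        (((dg p).clm_apply (hasFDerivAt_const w p)).clm_apply (hasFDerivAt_const v p)))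
    have k2 := fderiv_zero_of_ball hpM k1 fun x hx => by
      rw [h.symm x hx v w, h'.symm x hx v w, sub_self]
    have k3 := congrArg (fun T : E →L[ℝ] ℝ => T z) k2
    simp only [sub_apply, add_apply, ContinuousLinearMap.comp_apply, zero_apply, map_zero,
      ContinuousLinearMap.flip_apply, zero_add] at k3
    simp only [sub_apply]
    linarith
  have hDo : ∀ z v w, (fderiv ℝ g' p z - fderiv ℝ g p z) (I p v) (I p w) =
      (fderiv ℝ g' p z - fderiv ℝ g p z) v w := by
    intro z v w
    have kI : ∀ v, HasFDerivAt (fun x => I x v) ((fderiv ℝ I p).flip v) p := fun v => by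
      have := dI.clm_apply (hasFDerivAt_const v p)
      refine this.congr_fderiv ?_
      ext u
      simp
    have k1 : HasFDerivAt (fun x => (g' x (I x v) (I x w) - g x (I x v) (I x w)) -
        (g' x v w - g x v w)) _ p :=
      ((((dg' p).clm_apply (kI v)).clm_apply (kI w)).sub
        (((dg p).clm_apply (kI v)).clm_apply (kI w))).sub
      ((((dg' p).clm_apply (hasFDerivAt_const v p)).clm_apply (hasFDerivAt_const w p)).sub
        (((dg p).clm_apply (hasFDerivAt_const v p)).clm_apply (hasFDerivAt_const w p)))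
    have k2 := fderiv_zero_of_ball hpM k1 fun x hx => by
      rw [ho x hx, ho' x hx, sub_self]
    have k3 := congrArg (fun T : E →L[ℝ] ℝ => T z) k2
    simp only [sub_apply, add_apply, ContinuousLinearMap.comp_apply, zero_apply, map_zero,
      ContinuousLinearMap.flip_apply, zero_add, hG p hp] at k3
    simp only [sub_apply]
    linarith
  ext z v w
  have key := eq_of_hyper (D := fderiv ℝ g' p z - fderiv ℝ g p z) (A := I p) (p := p) (hDs z)
    (hsq p hpM) (hDo z) (norm_of_sphere hp)
    (fun v w hv hw => by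
      have b1 := t2 v hv z
      have b2 := t2 w hw z
      have b3 := t2 (v + w) (by rw [inner_add_right, hv, hw, add_zero]) z
      have b4 := hDs z v w
      simp only [map_add, add_apply, sub_apply] at b3 b4 ⊢
      linarith) v w
  simp only [sub_apply] at key
  linarith

end Pool.Agent.H85.SK
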