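import Pool.Agent.H85.SK.Fld
import Pool.Agent.H85.SK.Jet
import Pool.Agent.H85.SK.Defs

/-!
# Kaehler metrics with a potential and hermitian metrics: calculus
-/

open Set Metric MeasureTheory Filter Topology
open scoped ContDiff NNReal RealInnerProductSpace

noncomputable section

set_option maxSynthPendingDepth 3

namespace Pool.Agent.H85.SK

open Pool.Agent.W9h56.BE Pool.Agent.W5h72.BR Pool.Agent.H85.KA

variable {E : Type*} [NormedAddCommGroup E] [InnerProductSpace ℝ E]

variable {I : E → E →L[ℝ] E} {om : E → E →L[ℝ] E →L[ℝ] ℝ}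

lemma tri_d2 (x : E) : Tri (d2 om x) := by
  refine ⟨fun v w => ⟨fun a c => ?_, fun s a => ?_⟩, fun u w => ⟨fun a c => ?_, fun s a => ?_⟩,
    fun u v => ⟨fun a c => ?_, fun s a => ?_⟩⟩ <;>
  simp only [d2, map_add, map_smul, add_apply, smul_apply, smul_eq_mul] <;> ring

lemma tri_dc (x : E) : Tri (dcForm I om x) := by
  refine ⟨fun v w => ⟨fun a c => ?_, fun s a => ?_⟩, fun u w => ⟨fun a c => ?_, fun s a => ?_⟩,
    fun u v => ⟨fun a c => ?_, fun s a => ?_⟩⟩ <;>
  simp only [dcForm, d2, map_add, map_smul, add_apply, smul_apply, smul_eq_mul] <;> ring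

lemma d2_cyc (x u v w : E) : d2 om x u v w = d2 om x v w u := by
  simp only [d2]; ring

lemma dc_cyc (x u v w : E) : dcForm I om x u v w = dcForm I om x v w u := d2_cyc _ _ _ _

/-- linearity of the exterior derivative -/
lemma quad_d3 {η : E → E → E → E → ℝ} {x : E} (hT : ∀ y, Tri (η y))
    (hd : ∀ v w z, DifferentiableAt ℝ (fun y => η y v w z) x) : Quad (d3 η x) := by
  have a1 : ∀ u w z v v', fderiv ℝ (fun y => η y (v + v') w z) x u =
      fderiv ℝ (fun y => η y v w z) x u + fderiv ℝ (fun y => η y v' w z) x u := by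
    intro u w z v v'
    have : (fun y => η y (v + v') w z) = fun y => η y v w z + η y v' w z := by
      funext y; exact ((hT y).l1 w z).map_add v v'
    rw [this, fderiv_fun_add (hd v w z) (hd v' w z), add_apply]
  have a2 : ∀ u v z w w', fderiv ℝ (fun y => η y v (w + w') z) x u =
      fderiv ℝ (fun y => η y v w z) x u + fderiv ℝ (fun y => η y v w' z) x u := by
    intro u v z w w'
    have : (fun y => η y v (w + w') z) = fun y => η y v w z + η y v w' z := by
      funext y; exact ((hT y).l2 v z).map_add w w'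
    rw [this, fderiv_fun_add (hd v w z) (hd v w' z), add_apply]
  have a3 : ∀ u v w z z', fderiv ℝ (fun y => η y v w (z + z')) x u =
      fderiv ℝ (fun y => η y v w z) x u + fderiv ℝ (fun y => η y v w z') x u := by
    intro u v w z z'
    have : (fun y => η y v w (z + z')) = fun y => η y v w z + η y v w z' := by
      funext y; exact ((hT y).l3 v w).map_add z z'
    rw [this, fderiv_fun_add (hd v w z) (hd v w z'), add_apply]
  have b1 : ∀ (c : ℝ) u w z v, fderiv ℝ (fun y => η y (c • v) w z) x u =
      c * fderiv ℝ (fun y => η y v w z) x u := by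
    intro c u w z v
    have : (fun y => η y (c • v) w z) = fun y => c * η y v w z := by
      funext y; exact ((hT y).l1 w z).map_smul c v
    rw [this, fderiv_const_mul (hd v w z), smul_apply, smul_eq_mul]
  have b2 : ∀ (c : ℝ) u v z w, fderiv ℝ (fun y => η y v (c • w) z) x u =
      c * fderiv ℝ (fun y => η y v w z) x u := by
    intro c u v z w
    have : (fun y => η y v (c • w) z) = fun y => c * η y v w z := by
      funext y; exact ((hT y).l2 v z).map_smul c w
    rw [this, fderiv_const_mul (hd v w z), smul_apply, smul_eq_mul]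
  have b3 : ∀ (c : ℝ) u v w z, fderiv ℝ (fun y => η y v w (c • z)) x u =
      c * fderiv ℝ (fun y => η y v w z) x u := by
    intro c u v w z
    have : (fun y => η y v w (c • z)) = fun y => c * η y v w z := by
      funext y; exact ((hT y).l3 v w).map_smul c z
    rw [this, fderiv_const_mul (hd v w z), smul_apply, smul_eq_mul]
  refine ⟨fun v w z => ⟨fun a c => ?_, fun s a => ?_⟩, fun u w z => ⟨fun a c => ?_, fun s a => ?_⟩,
    fun u v z => ⟨fun a c => ?_, fun s a => ?_⟩, fun u v w => ⟨fun a c => ?_, fun s a => ?_⟩⟩ <;>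
  simp only [d3, map_add, map_smul, smul_eq_mul, a1, a2, a3, b1, b2, b3] <;> ring

/-- cyclic symmetry of the exterior derivative -/
lemma d3_cyc {η : E → E → E → E → ℝ} {x : E} (hx : x ∈ closedBall (0 : E) 1)
    (hd : ∀ u v w, DifferentiableAt ℝ (fun y => η y u v w) x)
    (hc : ∀ y ∈ closedBall (0 : E) 1, ∀ u v w, η y u v w = η y v w u)
    (ha : ∀ y ∈ closedBall (0 : E) 1, ∀ u v w, η y u v w = - η y u w v) (l k i j : E) :
    d3 η x l k i j = d3 η x l i j k := by
  have e1 : fderiv ℝ (fun y => η y i j k) x = fderiv ℝ (fun y => η y k i j) x := by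
    have h1 := fderiv_zero_of_ball hx ((hd i j k).hasFDerivAt.sub (hd k i j).hasFDerivAt)
      fun y hy => by
        simp only [Pi.sub_apply]
        rw [hc y hy k i j, sub_self]
    exact sub_eq_zero.1 h1
  have e2 : ∀ u v w, fderiv ℝ (fun y => η y u v w) x = - fderiv ℝ (fun y => η y u w v) x := by
    intro u v w
    have h1 := fderiv_zero_of_ball hx ((hd u v w).hasFDerivAt.add (hd u w v).hasFDerivAt)
      fun y hy => by
        simp only [Pi.add_apply]
        rw [ha y hy u v w, neg_add_cancel]
    exact eq_neg_of_add_eq_zero_left h1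
  simp only [d3]
  rw [e1, e2 l j k, e2 l i k]
  simp only [neg_apply]
  ring

end Pool.Agent.H85.SK
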