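import Pool.Agent.H85.SK.Fin

/-!
# Boundary rigidity of Kaehler metrics among hermitian metrics with `dd^c ω'` of one sign: the end
-/

open Set Metric MeasureTheory Filter Topology
open scoped ContDiff NNReal RealInnerProductSpace

noncomputable section

set_option maxSynthPendingDepth 3
set_option linter.unusedSectionVars false

namespace Pool.Agent.H85.SK

open Pool.Agent.W9h56.BE Pool.Agent.W5h72.BR Pool.Agent.H85.KA

variable {E : Type*} [NormedAddCommGroup E] [InnerProductSpace ℝ E] [FiniteDimensional ℝ E]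
  {g g' : E → E →L[ℝ] E →L[ℝ] ℝ} {e L e' L' : E → E → E} {I : E → E →L[ℝ] E} {ρ : E → ℝ}
  [MeasurableSpace E] [BorelSpace E]

namespace Pt

lemma cont_cf {ι : Type*} [Fintype ι] [DecidableEq ι] (D : Pt g g' I ρ)
    (b : OrthonormalBasis ι ℝ E) : ContinuousOn (D.cf b) (closedBall (0 : E) 1) := by
  intro x hx
  refine ContinuousAt.continuousWithinAt ?_
  refine tendsto_finsetSum _ fun l _ => tendsto_finsetSum _ fun k _ => tendsto_finsetSum _ fun i _ =>
    tendsto_finsetSum _ fun j _ => ?_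
  exact (D.c_qf b hx l k i j).continuousAt.mul
    ((((D.c_hf b k i j).contDiffAt.fderiv_right (m := 0) (by norm_num)).continuousAt).clm_apply
      continuousAt_const)

lemma cont_pf3 {ι : Type*} [Fintype ι] [DecidableEq ι] (D : Pt g g' I ρ)
    (b : OrthonormalBasis ι ℝ E) {r : E → ℝ} (hr : ContDiff ℝ 1 r) :
    ContinuousOn (D.pf3 b r) (closedBall (0 : E) 1) := by
  intro x hx
  refine ContinuousAt.continuousWithinAt ?_
  refine tendsto_finsetSum _ fun l _ => ?_
  refine ContinuousAt.mul (((hr.contDiffAt.fderiv_right (m := 0) (by norm_num)).continuousAt).clm_apply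
      continuousAt_const) ?_
  refine tendsto_finsetSum _ fun k _ => tendsto_finsetSum _ fun i _ =>
    tendsto_finsetSum _ fun j _ => ?_
  exact (D.c_qf b hx l k i j).continuousAt.mul (D.c_hf b k i j).continuous.continuousAt

/-- the sign of the contraction -/
lemma cf_nonneg {ι : Type*} [Fintype ι] [DecidableEq ι] (D : Pt g g' I ρ)
    (b : OrthonormalBasis ι ℝ E) (hs : DDCNonneg g' I) {x : E} (hx : x ∈ closedBall (0 : E) 1) :
    0 ≤ D.cf b x := by
  obtain ⟨F, hF, -⟩ := exists_frame (D.hs x hx) (D.hp x hx)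
  have hd : ∀ u v w, DifferentiableAt ℝ (fun y => dcForm I (fund g' I) y u v w) x := fun u v w =>
    (contDiff_dc D.hg' D.hI u v w).differentiable (by simp) x
  have hQ := quad_d3 (fun y => tri_dc (I := I) (om := fund g' I) y) hd
  have h1 := D.cf_eq b hx hF
  have h2 : 0 ≤ ∑ a, ∑ c, ddc g' I x (I x (F (b a))) (F (b a)) (I x (F (b c))) (F (b c)) := by
    refine Finset.sum_nonneg fun a _ => Finset.sum_nonneg fun c _ => ?_
    have h3 := hs x hx (I x (F (b a))) (I x (F (b c)))
    rw [D.hsq x hx, D.hsq x hx] at h3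
    have h4 := (hQ.l2 (I x (F (b a))) (I x (F (b c))) (-(F (b c)))).map_neg (F (b a))
    have h5 := (hQ.l4 (I x (F (b a))) (F (b a)) (I x (F (b c)))).map_neg (F (b c))
    rw [ddc, h4, h5, neg_neg] at h3
    exact h3
  have h3 : 0 ≤ pf (op (fund g I) x) := Real.sqrt_nonneg _
  have h4 := mul_nonneg h3 h2
  linarith

lemma cf_nonpos {ι : Type*} [Fintype ι] [DecidableEq ι] (D : Pt g g' I ρ)
    (b : OrthonormalBasis ι ℝ E) (hs : DDCNonpos g' I) {x : E} (hx : x ∈ closedBall (0 : E) 1) :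
    D.cf b x ≤ 0 := by
  obtain ⟨F, hF, -⟩ := exists_frame (D.hs x hx) (D.hp x hx)
  have hd : ∀ u v w, DifferentiableAt ℝ (fun y => dcForm I (fund g' I) y u v w) x := fun u v w =>
    (contDiff_dc D.hg' D.hI u v w).differentiable (by simp) x
  have hQ := quad_d3 (fun y => tri_dc (I := I) (om := fund g' I) y) hd
  have h1 := D.cf_eq b hx hF
  have h2 : ∑ a, ∑ c, ddc g' I x (I x (F (b a))) (F (b a)) (I x (F (b c))) (F (b c)) ≤ 0 := by
    refine Finset.sum_nonpos fun a _ => Finset.sum_nonpos fun c _ => ?_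
    have h3 := hs x hx (I x (F (b a))) (I x (F (b c)))
    rw [D.hsq x hx, D.hsq x hx] at h3
    have h4 := (hQ.l2 (I x (F (b a))) (I x (F (b c))) (-(F (b c)))).map_neg (F (b a))
    have h5 := (hQ.l4 (I x (F (b a))) (F (b a)) (I x (F (b c)))).map_neg (F (b c))
    rw [ddc, h4, h5, neg_neg] at h3
    exact h3
  have h3 : 0 ≤ pf (op (fund g I) x) := Real.sqrt_nonneg _
  have h4 := mul_nonpos_of_nonneg_of_nonpos h3 h2
  linarith

/-- the integral of the contraction is zero -/
lemma int_cf {ι : Type*} [Fintype ι] [DecidableEq ι] (D : Pt g g' I ρ)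
    (b : OrthonormalBasis ι ℝ E) (hn : 0 < Module.finrank ℝ E) :
    ∫ x in closedBall (0 : E) 1, D.cf b x = 0 := by
  have h1 := int_div hn b (V := D.wf b fun _ => 1) (fun l x hx => D.c_wf b contDiff_const hx l)
    (fun l p hp => D.z_wf b hp l)
  rw [← h1]
  refine setIntegral_congr_fun measurableSet_closedBall fun x hx => ?_
  have h2 := D.div2 b (r := fun _ => 1) contDiff_const hx
  rw [h2, pf3]
  simp

/-- the contraction vanishes -/
lemma cf_zero {ι : Type*} [Fintype ι] [DecidableEq ι] (D : Pt g g' I ρ)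
    (b : OrthonormalBasis ι ℝ E) (hn : 0 < Module.finrank ℝ E)
    (hs : DDCNonneg g' I ∨ DDCNonpos g' I) : ∀ x ∈ closedBall (0 : E) 1, D.cf b x = 0 := by
  rcases hs with hs | hs
  · exact zero_of_int (D.cont_cf b) (fun x hx => D.cf_nonneg b hs hx) (D.int_cf b hn).le
  · have h1 := zero_of_int (f := fun x => -D.cf b x) (D.cont_cf b).neg
      (fun x hx => neg_nonneg.2 (D.cf_nonpos b hs hx)) (by
        rw [integral_neg, D.int_cf b hn, neg_zero])
    exact fun x hx => neg_eq_zero.1 (h1 x hx)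

lemma int_pf3 {ι : Type*} [Fintype ι] [DecidableEq ι] (D : Pt g g' I ρ)
    (b : OrthonormalBasis ι ℝ E) (hn : 0 < Module.finrank ℝ E)
    (hs : DDCNonneg g' I ∨ DDCNonpos g' I) : ∫ x in closedBall (0 : E) 1, D.pf3 b ρ x = 0 := by
  have hρ : ContDiff ℝ 1 ρ := D.hP.1.of_le (by norm_cast)
  have h1 := int_div hn b (V := D.wf b ρ) (fun l x hx => D.c_wf b hρ hx l)
    (fun l p hp => D.z_wf b hp l)
  rw [← h1]
  refine setIntegral_congr_fun measurableSet_closedBall fun x hx => ?_
  have h2 := D.div2 b hρ hx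
  rw [h2, D.cf_zero b hn hs x hx, mul_zero, add_zero]

/-- the trace at a point -/
lemma tr_eq (D : Pt g g' I ρ) (hgm : IsMetric g) (hn0 : 0 < Module.finrank ℝ E) {x : E}
    (hx : x ∈ closedBall (0 : E) 1) :
    tr (stdOrthonormalBasis ℝ E) (wt (op (fund g I)) x ∘L (op (fund g' I) x - op (fund g I) x)) =
      Module.finrank ℝ E * (ntr (g x) (g' x) * dens (g x) - dens (g x)) := by
  set b := stdOrthonormalBasis ℝ E with hb
  set Om := op (fund g I) with hOm
  have o1 : ∀ x, Om x = gop (g x) ∘L I x := fun x => rfl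
  have o2 : ∀ x, op (fund g' I) x = gop (g' x) ∘L I x := fun x => rfl
  obtain ⟨uI, hI⟩ := unit_I (D.hsq x hx)
  obtain ⟨uG, hG⟩ := unit_G (D.hp x hx)
  have hdet : 0 < (gram (g x)).det := (frame hgm hx).choose_spec.2.2
  have e1 := tr_quot (B := g x) (C := g' x) uI uG hG hn0
  have e2 := tr_quot (B := g x) (C := g x) uI uG hG hn0
  rw [ntr_self hn0 hgm hx] at e2
  have e3 : pf (Om x) = dens (g x) := by rw [o1]; exact pf_op (D.hsq x hx) hdet
  rw [wt, e3, ContinuousLinearMap.smul_comp, tr_smul, ContinuousLinearMap.comp_sub]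
  have e4 : tr b (Ring.inverse (Om x) ∘L op (fund g' I) x - Ring.inverse (Om x) ∘L Om x) =
      tr b (Ring.inverse (Om x) ∘L op (fund g' I) x) - tr b (Ring.inverse (Om x) ∘L Om x) := by
    rw [sub_eq_add_neg, tr_add, ← neg_one_smul ℝ, tr_smul]; ring
  rw [e4, o2 x, o1, ← hI, hb, e1, e2]
  ring

/-- the integral of the normalised trace -/
theorem int_ntr (D : Pt g g' I ρ) (hgm : IsMetric g) (hgm' : IsMetric g')
    (hn : 3 ≤ Module.finrank ℝ E) (hs : DDCNonneg g' I ∨ DDCNonpos g' I) :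
    ∫ x in closedBall (0 : E) 1, ntr (g x) (g' x) * dens (g x) = vol g := by
  have hn0 : 0 < Module.finrank ℝ E := by omega
  set b := stdOrthonormalBasis ℝ E with hb
  have hcard : (Fintype.card (Fin (Module.finrank ℝ E)) : ℝ) = Module.finrank ℝ E := by
    rw [Fintype.card_fin]
  have hcd := (continuous_dens hgm.cont).continuousOn (s := closedBall (0 : E) 1)
  have i1 : IntegrableOn (fun x => ntr (g x) (g' x) * dens (g x)) (closedBall (0 : E) 1) :=
    intOn ((continuousOn_ntr hgm hgm'.cont).mul hcd)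
  have i2 : IntegrableOn (D.pf3 b ρ) (closedBall (0 : E) 1) :=
    intOn (D.cont_pf3 b (D.hP.1.of_le (by norm_cast)))
  have h1 := int_div hn0 b (V := D.vf b) (fun k x hx => D.c_vf b hx k) (fun k p hp => D.z_vf b hp k)
  have h2 : ∀ x ∈ closedBall (0 : E) 1, ∑ k, fderiv ℝ (D.vf b k) x (b k) =
      -(((Module.finrank ℝ E : ℝ) - 2) / 2 * (Module.finrank ℝ E *
        (ntr (g x) (g' x) * dens (g x) - dens (g x)))) + 1 / 3 * D.pf3 b ρ x := by
    intro x hx
    rw [D.div1 b hx, hcard, hb, D.tr_eq hgm hn0 hx]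
  rw [setIntegral_congr_fun measurableSet_closedBall h2, integral_add, integral_neg,
    integral_const_mul, integral_const_mul, integral_const_mul, D.int_pf3 b hn0 hs,
    integral_sub i1 (intOn hcd)] at h1
  · have h3 : ((Module.finrank ℝ E : ℝ) - 2) / 2 * Module.finrank ℝ E ≠ 0 := by
      have : (3 : ℝ) ≤ Module.finrank ℝ E := by exact_mod_cast hn
      have h4 : 0 < ((Module.finrank ℝ E : ℝ) - 2) / 2 * Module.finrank ℝ E := by
        apply mul_pos <;> linarith
      exact h4.ne'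
    have h4 : ((Module.finrank ℝ E : ℝ) - 2) / 2 * Module.finrank ℝ E *
        ((∫ x in closedBall (0 : E) 1, ntr (g x) (g' x) * dens (g x)) -
          ∫ x in closedBall (0 : E) 1, dens (g x)) = 0 := by linarith
    have h5 := (mul_eq_zero.1 h4).resolve_left h3
    rw [vol]
    linarith
  · exact (((i1.sub (intOn hcd)).const_mul _).const_mul _).neg
  · exact i2.const_mul _

end Pt

/-- the pull-back by the identity -/
lemma pull_id' (g' : E → E →L[ℝ] E →L[ℝ] ℝ) (x : E) : pull id g' x = g' x := by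
  ext v w
  rw [pull_apply, fderiv_id]
  rfl

lemma bdry_id : IsBdryMap (id : E → E) := ⟨contDiff_id, fun _ hx => hx, fun _ _ => rfl⟩

/-- rigidity -/
theorem rigid (hn : 3 ≤ Module.finrank ℝ E) (h : Simple g e L) (hg' : IsMetric g')
    (D : Pt g g' I ρ) (hs : DDCNonneg g' I ∨ DDCNonpos g' I)
    (hd : ∀ p ∈ sphere (0 : E) 1, ∀ q ∈ sphere (0 : E) 1, gdist g p q ≤ gdist g' p q) :
    ∀ x ∈ closedBall (0 : E) 1, g' x = g x := by
  have hn0 : 0 < Module.finrank ℝ E := by omega
  have hi := D.int_ntr (Simple_isMetric h) hg' hn hs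
  have he : energy 2 g g' id ≤ vol g := by
    rw [energy, ← hi]
    refine le_of_eq (setIntegral_congr_fun measurableSet_closedBall fun x _ => ?_)
    simp only [pull_id']
    norm_num
  have hiso := energy_eq hn0 h hg' bdry_id hd one_lt_two he
  intro x hx
  rw [← pull_id' g' x]
  exact hiso x hx

/-- the one-jet version: `g'` need not be simple -/
theorem main_jet (hn : 3 ≤ Module.finrank ℝ E) (hg : IsSimpleM g) (hg' : IsMetric g')
    (hs' : ContDiff ℝ ∞ g') (hI : IsAlmostComplex I) (ho : IsHermitian g I)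
    (ho' : IsHermitian g' I) (hP : IsPotential g I ρ) (hs : DDCNonneg g' I ∨ DDCNonpos g' I)
    (hj : ∀ p ∈ sphere (0 : E) 1, g' p = g p ∧ fderiv ℝ g' p = fderiv ℝ g p)
    (hd : BdryLE g g') : ∀ x ∈ closedBall (0 : E) 1, g' x = g x := by
  obtain ⟨e, L, h⟩ := hg
  refine rigid hn h hg' (ρ := ρ) (I := I) ⟨h.smooth, hs', hI.1, hP, hI.2, h.symm, hg'.symm, ho, ho',
    h.pos, hj⟩ hs fun p hp q hq => ?_
  have h1 := hd p hp q hq
  rwa [gd_eq, gd_eq] at h1

/-- the main theorem -/
theorem main (hn : 3 ≤ Module.finrank ℝ E) (hg : IsSimpleM g) (hg' : IsSimpleM g')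
    (hI : IsAlmostComplex I) (ho : IsHermitian g I) (ho' : IsHermitian g' I)
    (hP : IsPotential g I ρ) (hs : DDCNonneg g' I ∨ DDCNonpos g' I) (hd : BdryLE g g')
    (hd' : BdryLE g' g) : ∀ x ∈ closedBall (0 : E) 1, g' x = g x := by
  obtain ⟨e, L, h⟩ := hg
  obtain ⟨e', L', h'⟩ := hg'
  have hgd : ∀ p ∈ sphere (0 : E) 1, ∀ q ∈ sphere (0 : E) 1, gdist g p q = gdist g' p q := by
    intro p hp q hq
    have h1 := hd p hp q hq
    have h2 := hd' p hp q hq
    rw [gd_eq, gd_eq] at h1 h2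
    exact le_antisymm h1 h2
  have hrho := rho_of_gdist h h' hgd
  have hI1 : ContDiff ℝ 1 I := hI.1.of_le (by norm_cast)
  exact main_jet hn ⟨e, L, h⟩ (Simple_isMetric h') h'.smooth hI ho ho' hP hs
    (fun p hp => jet_eq h h' hI1 hI.2 ho ho' hrho hp) hd

end Pool.Agent.H85.SK
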