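import Pool.Agent.H85.SK.Main

/-!
# Boundary rigidity of Kaehler metrics among hermitian metrics with `dd^c ω'` of one sign: the proof
-/

open Set Metric MeasureTheory Filter Topology
open scoped ContDiff NNReal RealInnerProductSpace

noncomputable section

set_option maxSynthPendingDepth 3
set_option linter.unusedSectionVars false

namespace Pool.Agent.H85.SK

open Pool.Agent.W9h56.BE Pool.Agent.W5h72.BR Pool.Agent.H85.KA

variable {E : Type*} [NormedAddCommGroup E] [InnerProductSpace ℝ E] [FiniteDimensional ℝ E]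
  {g g' : E → E →L[ℝ] E →L[ℝ] ℝ} {e L e' L' : E → E → E} {I : E → E →L[ℝ] E} {ρ : E → ℝ}
  {ι : Type*} [Fintype ι] [DecidableEq ι]

omit [DecidableEq ι] in
lemma move4 (f : ι → ι → ι → ι → ℝ) :
    ∑ k, ∑ i, ∑ j, ∑ l, f k i j l = ∑ l, ∑ k, ∑ i, ∑ j, f k i j l := by
  calc ∑ k, ∑ i, ∑ j, ∑ l, f k i j l = ∑ k, ∑ i, ∑ l, ∑ j, f k i j l :=
        Finset.sum_congr rfl fun k _ => Finset.sum_congr rfl fun i _ => Finset.sum_comm
    _ = ∑ k, ∑ l, ∑ i, ∑ j, f k i j l := Finset.sum_congr rfl fun k _ => Finset.sum_comm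
    _ = _ := Finset.sum_comm

/-- the pointwise data -/
structure Pt (g g' : E → E →L[ℝ] E →L[ℝ] ℝ) (I : E → E →L[ℝ] E) (ρ : E → ℝ) : Prop where
  hg : ContDiff ℝ ∞ g
  hg' : ContDiff ℝ ∞ g'
  hI : ContDiff ℝ ∞ I
  hP : IsPotential g I ρ
  hsq : ∀ x ∈ closedBall (0 : E) 1, ∀ v, I x (I x v) = -v
  hs : ∀ x ∈ closedBall (0 : E) 1, ∀ v w, g x v w = g x w v
  hs' : ∀ x ∈ closedBall (0 : E) 1, ∀ v w, g' x v w = g' x w v
  ho : ∀ x ∈ closedBall (0 : E) 1, ∀ v w, g x (I x v) (I x w) = g x v w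
  ho' : ∀ x ∈ closedBall (0 : E) 1, ∀ v w, g' x (I x v) (I x w) = g' x v w
  hp : ∀ x ∈ closedBall (0 : E) 1, ∀ v, v ≠ 0 → 0 < g x v v
  hj : ∀ p ∈ sphere (0 : E) 1, g' p = g p ∧ fderiv ℝ g' p = fderiv ℝ g p

namespace Pt

variable (D : Pt g g' I ρ) (b : OrthonormalBasis ι ℝ E)
include D

lemma fa {x : E} (hx : x ∈ closedBall (0 : E) 1) (v w : E) : fund g I x v w = - fund g I x w v :=
  fund_anti (D.hs x hx) (D.hsq x hx) (D.ho x hx) v w

lemma fa' {x : E} (hx : x ∈ closedBall (0 : E) 1) (v w : E) :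
    fund g' I x v w = - fund g' I x w v :=
  fund_anti (D.hs' x hx) (D.hsq x hx) (D.ho' x hx) v w

lemma cOm : ContDiff ℝ 1 (op (fund g I)) :=
  contDiff_op ((contDiff_fundI D.hg D.hI).of_le (by norm_cast))

lemma aOm {x : E} (hx : x ∈ closedBall (0 : E) 1) : Anti (op (fund g I) x) :=
  anti_op (D.fa hx)

lemma uOm {x : E} (hx : x ∈ closedBall (0 : E) 1) : IsUnit (op (fund g I) x) := by
  borelize E
  have : op (fund g I) x = gop (g x) ∘L I x := rfl
  rw [this]
  exact (unit_G (D.hp x hx)).mul (unit_I (D.hsq x hx))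

lemma dOm {x : E} (hx : x ∈ closedBall (0 : E) 1) (u : E) :
    Anti (fderiv ℝ (op (fund g I)) x u) := by
  intro v w
  have hF := (contDiff_fundI D.hg D.hI).of_le (n := ∞) (m := 1) (by norm_cast)
  rw [real_inner_comm (fderiv ℝ (op (fund g I)) x u w) v, fderiv_op hF, fderiv_op hF]
  exact fund_skew D.hg D.hI (fun x hx => D.fa hx) hx u v w

lemma clOm {x : E} (hx : x ∈ closedBall (0 : E) 1) : Cl (fderiv ℝ (op (fund g I)) x) := by
  intro u v w
  have hF := (contDiff_fundI D.hg D.hI).of_le (n := ∞) (m := 1) (by norm_cast)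
  rw [fderiv_op hF, fderiv_op hF, fderiv_op hF]
  exact closed_pot D.hg D.hI D.hP hx u v w

/-- the coefficients of the primitive -/
def tf (_ : Pt g g' I ρ) (b : OrthonormalBasis ι ℝ E) (l : ι) (x : E) : ℝ := dcFun I ρ x (b l)

/-- the coefficients of the difference of the forms -/
def bf (_ : Pt g g' I ρ) (b : OrthonormalBasis ι ℝ E) (i j : ι) (x : E) : ℝ :=
  fund g' I x (b i) (b j) - fund g I x (b i) (b j)

/-- the coefficients of `d^c ω'` -/
def hf (_ : Pt g g' I ρ) (b : OrthonormalBasis ι ℝ E) (k i j : ι) (x : E) : ℝ :=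
  dcForm I (fund g' I) x (b k) (b i) (b j)

lemma c_tf (l : ι) : ContDiff ℝ 1 (D.tf b l) :=
  ((contDiff_dcFun D.hI D.hP.1).clm_apply contDiff_const).of_le (by norm_cast)

lemma c_bf (i j : ι) : ContDiff ℝ 1 (D.bf b i j) :=
  ((((contDiff_fundI D.hg' D.hI).clm_apply contDiff_const).clm_apply contDiff_const).sub
    (((contDiff_fundI D.hg D.hI).clm_apply contDiff_const).clm_apply contDiff_const)).of_le
    (by norm_cast)

lemma c_hf (k i j : ι) : ContDiff ℝ 1 (D.hf b k i j) :=
  (contDiff_dc D.hg' D.hI _ _ _).of_le (by norm_cast)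

lemma c_qf {x : E} (hx : x ∈ closedBall (0 : E) 1) (l k i j : ι) :
    ContDiffAt ℝ 1 (qf b (op (fund g I)) l k i j) x :=
  contDiffAt_qf b D.cOm.contDiffAt (D.uOm hx) l k i j

lemma d_qf {x : E} (hx : x ∈ closedBall (0 : E) 1) (k i j : ι) :
    ∑ l, fderiv ℝ (qf b (op (fund g I)) l k i j) x (b l) = 0 :=
  div_qf b D.cOm.contDiffAt (D.uOm hx) (D.aOm hx) (D.dOm hx) (D.clOm hx) k i j

lemma s_qf {x : E} (hx : x ∈ closedBall (0 : E) 1) (l k i j : ι) (v : E) :
    fderiv ℝ (qf b (op (fund g I)) l k i j) x v = - fderiv ℝ (qf b (op (fund g I)) k l i j) x v := by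
  have d1 := ((D.c_qf b hx l k i j).differentiableAt (by norm_num)).hasFDerivAt
  have d2 := ((D.c_qf b hx k l i j).differentiableAt (by norm_num)).hasFDerivAt
  have h1 := fderiv_zero_of_ball hx (d1.add d2) fun y hy => by
    simp only [Pi.add_apply, qf]
    rw [qq_swap (rm_anti b (Rf_facts (D.uOm hy) (D.aOm hy)).1) l k, neg_add_cancel]
  have h2 := congrArg (fun T : E →L[ℝ] ℝ => T v) h1
  simp only [add_apply, zero_apply] at h2
  linarith

/-- the first vector field -/
def vf (D : Pt g g' I ρ) (b : OrthonormalBasis ι ℝ E) (k : ι) (x : E) : ℝ :=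
  ∑ i, ∑ j, (∑ l, D.tf b l x * qf b (op (fund g I)) l k i j x) * D.bf b i j x

/-- the second vector field -/
def wf (D : Pt g g' I ρ) (b : OrthonormalBasis ι ℝ E) (r : E → ℝ) (l : ι) (x : E) : ℝ :=
  r x * ∑ k, ∑ i, ∑ j, qf b (op (fund g I)) l k i j x * D.hf b k i j x

/-- the contraction of the four-vector and `dd^c ω'` -/
def cf (D : Pt g g' I ρ) (b : OrthonormalBasis ι ℝ E) (x : E) : ℝ :=
  ∑ l, ∑ k, ∑ i, ∑ j, qf b (op (fund g I)) l k i j x * fderiv ℝ (D.hf b k i j) x (b l)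

/-- the contraction of the four-vector, `d^c ω'` and `dρ` -/
def pf3 (D : Pt g g' I ρ) (b : OrthonormalBasis ι ℝ E) (r : E → ℝ) (x : E) : ℝ :=
  ∑ l, fderiv ℝ r x (b l) * ∑ k, ∑ i, ∑ j, qf b (op (fund g I)) l k i j x * D.hf b k i j x

lemma d2_eq {x : E} (hx : x ∈ closedBall (0 : E) 1) (k i j : ι) :
    fderiv ℝ (D.bf b i j) x (b k) + fderiv ℝ (D.bf b j k) x (b i) + fderiv ℝ (D.bf b k i) x (b j) =
      d2 (fund g' I) x (b k) (b i) (b j) := by
  have k0 : HasFDerivAt (fund g I) (fderiv ℝ (fund g I) x) x :=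
    ((contDiff_fundI D.hg D.hI).differentiable (by simp) x).hasFDerivAt
  have k0' : HasFDerivAt (fund g' I) (fderiv ℝ (fund g' I) x) x :=
    ((contDiff_fundI D.hg' D.hI).differentiable (by simp) x).hasFDerivAt
  have k1 : ∀ i j : ι, ∀ v, fderiv ℝ (D.bf b i j) x v =
      fderiv ℝ (fund g' I) x v (b i) (b j) - fderiv ℝ (fund g I) x v (b i) (b j) := by
    intro i j v
    have k2 : HasFDerivAt (D.bf b i j) _ x :=
      ((k0'.clm_apply (hasFDerivAt_const (b i) x)).clm_apply (hasFDerivAt_const (b j) x)).sub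
      ((k0.clm_apply (hasFDerivAt_const (b i) x)).clm_apply (hasFDerivAt_const (b j) x))
    rw [k2.fderiv]
    simp only [sub_apply, add_apply, ContinuousLinearMap.comp_apply, zero_apply, map_zero,
      ContinuousLinearMap.flip_apply, zero_add]
  have k3 := closed_pot D.hg D.hI D.hP hx (b k) (b i) (b j)
  simp only [d2] at k3
  rw [k1, k1, k1, d2]
  linarith

/-- the divergence of the first vector field -/
lemma div1 {x : E} (hx : x ∈ closedBall (0 : E) 1) :
    ∑ k, fderiv ℝ (D.vf b k) x (b k) =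
      -(((Fintype.card ι : ℝ) - 2) / 2 * tr b (wt (op (fund g I)) x ∘L
        (op (fund g' I) x - op (fund g I) x))) + 1 / 3 * D.pf3 b ρ x := by
  have hV : ∀ k, D.vf b k = fun y => ∑ i, ∑ j,
      (∑ l, D.tf b l y * qf b (op (fund g I)) l k i j y) * D.bf b i j y := fun k => rfl
  simp only [hV]
  rw [div_V b (fun l => (D.c_tf b l).differentiable (by norm_num) x)
    (fun l k i j => (D.c_qf b hx l k i j).differentiableAt (by norm_num))
    (fun i j => (D.c_bf b i j).differentiable (by norm_num) x) (D.s_qf b hx) (D.d_qf b hx)]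
  obtain ⟨hRa, hRO, hOR⟩ := Rf_facts (D.uOm hx) (D.aOm hx)
  have hR := rm_anti b hRa
  congr 1
  · rw [tr_arr b, Finset.mul_sum, ← Finset.sum_neg_distrib]
    refine Finset.sum_congr rfl fun i _ => ?_
    rw [Finset.mul_sum, ← Finset.sum_neg_distrib]
    refine Finset.sum_congr rfl fun j _ => ?_
    rw [contr_x b (D.uOm hx) (D.aOm hx) (T := fun l k => fderiv ℝ (D.tf b l) x (b k)) ?_ i j]
    · rw [sub_apply, inner_sub_left, op, op, inner_gop, inner_gop, bf]
      ring
    · intro l k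
      have k0 : HasFDerivAt (dcFun I ρ) (fderiv ℝ (dcFun I ρ) x) x :=
        ((contDiff_dcFun D.hI D.hP.1).differentiable (by simp) x).hasFDerivAt
      have k1 : ∀ l : ι, ∀ v, fderiv ℝ (D.tf b l) x v = fderiv ℝ (dcFun I ρ) x v (b l) := by
        intro l v
        have k2 : HasFDerivAt (D.tf b l) _ x := k0.clm_apply (hasFDerivAt_const (b l) x)
        rw [k2.fderiv]
        simp only [add_apply, ContinuousLinearMap.comp_apply, zero_apply, map_zero,
          ContinuousLinearMap.flip_apply, zero_add]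
      rw [k1, k1, real_inner_comm, op, inner_gop, D.hP.2 x hx]
  · set G : ι → ι → ι → ℝ := fun k i j => ∑ l, D.tf b l x * qf b (op (fund g I)) l k i j x with hG
    have h1 := sum_alt (G := G) (H := fun k i j => fderiv ℝ (D.bf b i j) x (b k))
      (fun k i j => by
        simp only [hG, qf]
        refine Finset.sum_congr rfl fun l _ => ?_
        rw [qq_cyc l k i j])
    have h3 : ∑ k, ∑ i, ∑ j, G k i j * (fderiv ℝ (D.bf b i j) x (b k) +
        fderiv ℝ (D.bf b j k) x (b i) + fderiv ℝ (D.bf b k i) x (b j)) =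
        ∑ l, D.tf b l x * ∑ k, ∑ i, ∑ j, qf b (op (fund g I)) l k i j x *
          d2 (fund g' I) x (b k) (b i) (b j) := by
      simp only [D.d2_eq b hx, hG, Finset.sum_mul, Finset.mul_sum]
      rw [move4 fun k i j l => D.tf b l x * qf b (op (fund g I)) l k i j x *
        d2 (fund g' I) x (b k) (b i) (b j)]
      refine Finset.sum_congr rfl fun l _ => Finset.sum_congr rfl fun k _ =>
        Finset.sum_congr rfl fun i _ => Finset.sum_congr rfl fun j _ => by ring
    have h4 : ∑ l, D.tf b l x * ∑ k, ∑ i, ∑ j, qf b (op (fund g I)) l k i j x *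
        d2 (fund g' I) x (b k) (b i) (b j) = D.pf3 b ρ x := by
      set J := (InnerProductSpace.toDual ℝ E).symm with hJ
      have h5 := swap_I b (m := pf (op (fund g I) x)) (Om := op (fund g I) x)
        (R := Rf (op (fund g I)) x) (A := I x) hRa hRO hOR (D.hsq x hx)
        (fun v w => by
          rw [op, inner_gop, inner_gop, fund_apply, fund_apply, D.ho x hx]) (tri_d2 (om := fund g' I) x) (fun u v w => d2_cyc x u v w)
        (r := J (fderiv ℝ ρ x)) (t := J (dcFun I ρ x)) (fun z => by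
          rw [hJ, InnerProductSpace.toDual_symm_apply, InnerProductSpace.toDual_symm_apply]
          rfl)
      have h6 : ∀ T : E →L[ℝ] ℝ, ∀ l, (inner ℝ (b l) (J T) : ℝ) = T (b l) := fun T l => by
        rw [real_inner_comm, hJ, InnerProductSpace.toDual_symm_apply]
      simp only [h6] at h5
      exact h5
    linarith

/-- the divergence of the second vector field -/
lemma div2 {r : E → ℝ} (hr : ContDiff ℝ 1 r) {x : E} (hx : x ∈ closedBall (0 : E) 1) :
    ∑ l, fderiv ℝ (D.wf b r l) x (b l) = D.pf3 b r x + r x * D.cf b x :=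
  div_V2 b (hr.differentiable (by norm_num) x)
    (fun l k i j => (D.c_qf b hx l k i j).differentiableAt (by norm_num))
    (fun k i j => (D.c_hf b k i j).differentiable (by norm_num) x) (D.d_qf b hx)

lemma c_vf {x : E} (hx : x ∈ closedBall (0 : E) 1) (k : ι) : ContDiffAt ℝ 1 (D.vf b k) x := by
  refine ContDiffAt.sum fun i _ => ContDiffAt.sum fun j _ => ContDiffAt.mul ?_
    (D.c_bf b i j).contDiffAt
  exact ContDiffAt.sum fun l _ => (D.c_tf b l).contDiffAt.mul (D.c_qf b hx l k i j)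

lemma c_wf {r : E → ℝ} (hr : ContDiff ℝ 1 r) {x : E} (hx : x ∈ closedBall (0 : E) 1) (l : ι) :
    ContDiffAt ℝ 1 (D.wf b r l) x :=
  hr.contDiffAt.mul (ContDiffAt.sum fun k _ => ContDiffAt.sum fun i _ => ContDiffAt.sum fun j _ =>
    (D.c_qf b hx l k i j).mul (D.c_hf b k i j).contDiffAt)

lemma z_vf {p : E} (hp : p ∈ sphere (0 : E) 1) (k : ι) : D.vf b k p = 0 := by
  have h1 : ∀ i j, D.bf b i j p = 0 := fun i j => by
    rw [bf, fund_apply, fund_apply, (D.hj p hp).1, sub_self]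
  simp only [vf, h1, mul_zero, Finset.sum_const_zero]

lemma z_wf {r : E → ℝ} {p : E} (hp : p ∈ sphere (0 : E) 1) (l : ι) : D.wf b r l p = 0 := by
  have h1 : ∀ k i j, D.hf b k i j p = 0 := fun k i j => by
    have h2 : ∀ u v w, d2 (fund g' I) p u v w = 0 := fun u v w => by
      have h3 := closed_pot D.hg D.hI D.hP (mem_of_sphere hp) u v w
      rw [d2] at h3 ⊢
      rw [fund_jet D.hg D.hg' D.hI (D.hj p hp).1 (D.hj p hp).2]
      exact h3
    rw [hf, dcForm, h2]
  simp only [wf, h1, mul_zero, Finset.sum_const_zero]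

/-- the contraction as a sum over complex lines -/
lemma cf_eq {x : E} (hx : x ∈ closedBall (0 : E) 1) {F : E ≃ₗ[ℝ] E}
    (hF : ∀ v w, g x (F v) (F w) = inner ℝ v w) :
    4 * D.cf b x = 3 * (pf (op (fund g I) x) * ∑ a, ∑ c,
      ddc g' I x (I x (F (b a))) (F (b a)) (I x (F (b c))) (F (b c))) := by
  obtain ⟨hRa, hRO, hOR⟩ := Rf_facts (D.uOm hx) (D.aOm hx)
  have hR := rm_anti b hRa
  have hd : ∀ u v w, DifferentiableAt ℝ (fun y => dcForm I (fund g' I) y u v w) x := fun u v w =>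
    (contDiff_dc D.hg' D.hI u v w).differentiable (by simp) x
  have h1 := sum_four (m := pf (op (fund g I) x)) (R := rm b (Rf (op (fund g I)) x)) hR
    (fun l k i j => fderiv ℝ (D.hf b k i j) x (b l))
  have h2 := four_frame b (m := pf (op (fund g I) x)) (B := g x) (F := F)
    (Om := op (fund g I) x) (R := Rf (op (fund g I)) x) (A := I x) hF hRO
    (fun v w => by rw [op, inner_gop, fund_apply]) (D.hsq x hx)
    (D := d3 (dcForm I (fund g' I)) x) (quad_d3 (fun y => tri_dc y) hd)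
    (fun l k i j => d3_cyc hx hd (fun y _ u v w => dc_cyc y u v w)
      (fun y hy u v w => d2_skew D.hg' D.hI (fun x hx => D.fa' hx) hy _ _ _) l k i j)
  have h3 : ∑ l, ∑ k, ∑ i, ∑ j, qq (pf (op (fund g I) x)) (rm b (Rf (op (fund g I)) x)) l k i j *
      d3 (dcForm I (fund g' I)) x (b l) (b k) (b i) (b j) = 4 * D.cf b x := h1
  rw [h3] at h2
  exact h2

end Pt

end Pool.Agent.H85.SK
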