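import Pool.Agent.H85.SK.Pt2

/-!
# The four-vector of a closed two-form is free of divergence
-/

open Set Metric MeasureTheory Filter Topology
open scoped ContDiff NNReal RealInnerProductSpace

noncomputable section

set_option maxSynthPendingDepth 3

namespace Pool.Agent.H85.SK

open Pool.Agent.W9h56.BE Pool.Agent.W5h72.BR Pool.Agent.H85.KA

variable {E : Type*} [NormedAddCommGroup E] [InnerProductSpace ℝ E] {ι : Type*} [Fintype ι]

/-- the inverse -/
def Rf (Om : E → E →L[ℝ] E) (x : E) : E →L[ℝ] E := Ring.inverse (Om x)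

/-- the components of the four-vector -/
def qf (b : OrthonormalBasis ι ℝ E) (Om : E → E →L[ℝ] E) (l k i j : ι) (x : E) : ℝ :=
  qq (pf (Om x)) (rm b (Rf Om x)) l k i j

lemma qf_eq (b : OrthonormalBasis ι ℝ E) (Om : E → E →L[ℝ] E) (l k i j : ι) :
    qf b Om l k i j = fun x =>
      inner ℝ (b l) (wt Om x (b k)) * inner ℝ (b i) (Rf Om x (b j)) +
      inner ℝ (b l) (wt Om x (b i)) * inner ℝ (b j) (Rf Om x (b k)) +
      inner ℝ (b l) (wt Om x (b j)) * inner ℝ (b k) (Rf Om x (b i)) := by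
  funext x
  simp only [qf, qq, rm, wt, Rf, smul_apply, inner_smul_right]
  ring

lemma contDiffAt_Rf {Om : E → E →L[ℝ] E} {x : E} [FiniteDimensional ℝ E]
    (h : ContDiffAt ℝ 1 Om x) (hu : IsUnit (Om x)) : ContDiffAt ℝ 1 (Rf Om) x := by
  obtain ⟨u, hu⟩ := hu
  have h1 : ContDiffAt ℝ 1 Ring.inverse (Om x) := by
    rw [← hu]; exact contDiffAt_ringInverse ℝ u
  exact h1.comp x h

lemma contDiffAt_ent {F : E → E →L[ℝ] E} {x : E} (h : ContDiffAt ℝ 1 F x) (a z : E) :
    ContDiffAt ℝ 1 (fun y => (inner ℝ a (F y z) : ℝ)) x :=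
  contDiffAt_const.inner ℝ (h.clm_apply contDiffAt_const)

lemma fderiv_ent {F : E → E →L[ℝ] E} {x : E} (h : ContDiffAt ℝ 1 F x) (a z u : E) :
    fderiv ℝ (fun y => (inner ℝ a (F y z) : ℝ)) x u = inner ℝ a (fderiv ℝ F x u z) := by
  have h1 := (h.differentiableAt (by norm_num)).hasFDerivAt
  have h2 := (hasFDerivAt_const a x).inner ℝ (h1.clm_apply (hasFDerivAt_const z x))
  rw [h2.fderiv]
  simp only [ContinuousLinearMap.comp_apply, ContinuousLinearMap.prod_apply,
    fderivInnerCLM_apply, zero_apply, inner_zero_left, add_zero, add_apply, map_zero, zero_add,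
    ContinuousLinearMap.flip_apply]

variable [FiniteDimensional ℝ E] [DecidableEq ι]

omit [DecidableEq ι] in
lemma contDiffAt_qf (b : OrthonormalBasis ι ℝ E) {Om : E → E →L[ℝ] E} {x : E}
    (h : ContDiffAt ℝ 1 Om x) (hu : IsUnit (Om x)) (l k i j : ι) :
    ContDiffAt ℝ 1 (qf b Om l k i j) x := by
  rw [qf_eq]
  have hW := contDiffAt_wt b h hu
  have hR := contDiffAt_Rf h hu
  exact (((contDiffAt_ent hW _ _).mul (contDiffAt_ent hR _ _)).add
    ((contDiffAt_ent hW _ _).mul (contDiffAt_ent hR _ _))).add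
    ((contDiffAt_ent hW _ _).mul (contDiffAt_ent hR _ _))

omit [DecidableEq ι] in
lemma fderiv_qf (b : OrthonormalBasis ι ℝ E) {Om : E → E →L[ℝ] E} {x : E}
    (h : ContDiffAt ℝ 1 Om x) (hu : IsUnit (Om x)) (l k i j : ι) (v : E) :
    fderiv ℝ (qf b Om l k i j) x v =
      (inner ℝ (b l) (wt Om x (b k)) * inner ℝ (b i) (fderiv ℝ (Rf Om) x v (b j)) +
        inner ℝ (b l) (fderiv ℝ (wt Om) x v (b k)) * inner ℝ (b i) (Rf Om x (b j))) +
      (inner ℝ (b l) (wt Om x (b i)) * inner ℝ (b j) (fderiv ℝ (Rf Om) x v (b k)) +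
        inner ℝ (b l) (fderiv ℝ (wt Om) x v (b i)) * inner ℝ (b j) (Rf Om x (b k))) +
      (inner ℝ (b l) (wt Om x (b j)) * inner ℝ (b k) (fderiv ℝ (Rf Om) x v (b i)) +
        inner ℝ (b l) (fderiv ℝ (wt Om) x v (b j)) * inner ℝ (b k) (Rf Om x (b i))) := by
  rw [qf_eq]
  have hW := contDiffAt_wt b h hu
  have hR := contDiffAt_Rf h hu
  have d1 : ∀ a z : E, HasFDerivAt (fun y => (inner ℝ a (wt Om y z) : ℝ))
      (fderiv ℝ (fun y => (inner ℝ a (wt Om y z) : ℝ)) x) x := fun a z =>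
    ((contDiffAt_ent hW a z).differentiableAt (by norm_num)).hasFDerivAt
  have d2 : ∀ a z : E, HasFDerivAt (fun y => (inner ℝ a (Rf Om y z) : ℝ))
      (fderiv ℝ (fun y => (inner ℝ a (Rf Om y z) : ℝ)) x) x := fun a z =>
    ((contDiffAt_ent hR a z).differentiableAt (by norm_num)).hasFDerivAt
  have d3 := (((d1 (b l) (b k)).mul (d2 (b i) (b j))).add
    ((d1 (b l) (b i)).mul (d2 (b j) (b k)))).add ((d1 (b l) (b j)).mul (d2 (b k) (b i)))
  have d4 := congrArg (fun T : E →L[ℝ] ℝ => T v) d3.fderiv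
  refine d4.trans ?_
  simp only [add_apply, smul_apply, smul_eq_mul, fderiv_ent hW, fderiv_ent hR]
  ring

/-- **the four-vector is free of divergence** -/
lemma div_qf (b : OrthonormalBasis ι ℝ E) {Om : E → E →L[ℝ] E} {x : E}
    (h : ContDiffAt ℝ 1 Om x) (hu : IsUnit (Om x)) (hA : Anti (Om x))
    (hc : ∀ v, Anti (fderiv ℝ Om x v)) (hcl : Cl (fderiv ℝ Om x)) (k i j : ι) :
    ∑ l, fderiv ℝ (qf b Om l k i j) x (b l) = 0 := by
  have hdw := div_wt b h hu hA hc hcl
  simp only [fderiv_qf b h hu, Finset.sum_add_distrib, ← Finset.sum_mul, hdw, zero_mul, add_zero]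
  obtain ⟨u, hu⟩ := hu
  have hQ := anti_inv hA u hu
  have hRx : Rf Om x = (↑u⁻¹ : E →L[ℝ] E) := by rw [Rf, ← hu]; exact Ring.inverse_unit u
  have hRd : ∀ v, fderiv ℝ (Rf Om) x v =
      -((↑u⁻¹ : E →L[ℝ] E) ∘L fderiv ℝ Om x v ∘L (↑u⁻¹ : E →L[ℝ] E)) := by
    intro v
    have h1 : HasFDerivAt Ring.inverse
        (-ContinuousLinearMap.mulLeftRight ℝ (E →L[ℝ] E) ↑u⁻¹ ↑u⁻¹) (Om x) := by
      rw [← hu]; exact hasFDerivAt_ringInverse u
    have h2 := h1.comp x (h.differentiableAt (by norm_num)).hasFDerivAt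
    have h3 : fderiv ℝ (Rf Om) x = _ := h2.fderiv
    rw [h3]
    simp only [ContinuousLinearMap.comp_apply, neg_apply, ContinuousLinearMap.mulLeftRight_apply]
    rfl
  set Q : E →L[ℝ] E := (↑u⁻¹ : E →L[ℝ] E) with hQd
  set c := fderiv ℝ Om x with hcd
  have key : ∀ p q r : ι, ∑ l, inner ℝ (b l) (wt Om x (b p)) *
      (inner ℝ (b q) (fderiv ℝ (Rf Om) x (b l) (b r)) : ℝ) =
      pf (Om x) * inner ℝ (c (Q (b p)) (Q (b r))) (Q (b q)) := by
    intro p q r
    have h4 : c (Q (b p)) = ∑ l, (inner ℝ (b l) (Q (b p)) : ℝ) • c (b l) := by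
      conv_lhs => rw [← b.sum_repr' (Q (b p))]
      simp
    rw [h4]
    simp only [FunLike.coe_sum, Finset.sum_apply, smul_apply, _root_.sum_inner, inner_smul_left,
      Finset.mul_sum]
    refine Finset.sum_congr rfl fun l _ => ?_
    rw [hRd, wt]
    have h5 : Ring.inverse (Om x) = Q := hRx
    rw [h5]
    simp only [smul_apply, inner_smul_right, neg_apply, ContinuousLinearMap.comp_apply,
      inner_neg_right, RCLike.conj_to_real]
    have h6 := hQ (b q) (c (b l) (Q (b r)))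
    rw [real_inner_comm (c (b l) (Q (b r))) (Q (b q))] at h6
    rw [h6]
    ring
  rw [key, key, key, ← mul_add, ← mul_add]
  have h7 := hcl (Q (b k)) (Q (b j)) (Q (b i))
  have h8 : (inner ℝ (c (Q (b k)) (Q (b j))) (Q (b i)) : ℝ) +
      inner ℝ (c (Q (b i)) (Q (b k))) (Q (b j)) + inner ℝ (c (Q (b j)) (Q (b i))) (Q (b k)) = 0 := by
    linarith
  rw [h8, mul_zero]

section fields

omit [FiniteDimensional ℝ E] [DecidableEq ι]

/-- the divergence of the first vector field -/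
lemma div_V (b : OrthonormalBasis ι ℝ E) {x : E} {t : ι → E → ℝ} {q : ι → ι → ι → ι → E → ℝ}
    {β : ι → ι → E → ℝ} (ht : ∀ l, DifferentiableAt ℝ (t l) x)
    (hq : ∀ l k i j, DifferentiableAt ℝ (q l k i j) x) (hβ : ∀ i j, DifferentiableAt ℝ (β i j) x)
    (ha : ∀ l k i j v, fderiv ℝ (q l k i j) x v = - fderiv ℝ (q k l i j) x v)
    (hd : ∀ k i j, ∑ l, fderiv ℝ (q l k i j) x (b l) = 0) :
    ∑ k, fderiv ℝ (fun y => ∑ i, ∑ j, (∑ l, t l y * q l k i j y) * β i j y) x (b k) =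
      ∑ i, ∑ j, (∑ l, ∑ k, fderiv ℝ (t l) x (b k) * q l k i j x) * β i j x +
      ∑ k, ∑ i, ∑ j, (∑ l, t l x * q l k i j x) * fderiv ℝ (β i j) x (b k) := by
  have h1 : ∀ k, fderiv ℝ (fun y => ∑ i, ∑ j, (∑ l, t l y * q l k i j y) * β i j y) x (b k) =
      ∑ i, ∑ j, ((∑ l, t l x * q l k i j x) * fderiv ℝ (β i j) x (b k) +
        (∑ l, (t l x * fderiv ℝ (q l k i j) x (b k) + fderiv ℝ (t l) x (b k) * q l k i j x)) *
          β i j x) := by
    intro k
    have h2 : HasFDerivAt (fun y => ∑ i, ∑ j, (∑ l, t l y * q l k i j y) * β i j y) _ x :=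
      HasFDerivAt.fun_sum fun i _ => HasFDerivAt.fun_sum fun j _ =>
        (HasFDerivAt.fun_sum fun l _ => (ht l).hasFDerivAt.mul (hq l k i j).hasFDerivAt).mul
          (hβ i j).hasFDerivAt
    rw [h2.fderiv]
    simp only [FunLike.coe_sum, Finset.sum_apply, add_apply, smul_apply, smul_eq_mul]
    refine Finset.sum_congr rfl fun i _ => Finset.sum_congr rfl fun j _ => ?_
    congr 1
    rw [Finset.sum_mul, Finset.mul_sum]
    exact Finset.sum_congr rfl fun l _ => by ring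
  simp only [h1, Finset.sum_add_distrib, add_mul]
  have h3 : ∑ k, ∑ i, ∑ j, (∑ l, t l x * fderiv ℝ (q l k i j) x (b k)) * β i j x = 0 := by
    rw [Finset.sum_comm]
    refine Finset.sum_eq_zero fun i _ => ?_
    rw [Finset.sum_comm]
    refine Finset.sum_eq_zero fun j _ => ?_
    rw [← Finset.sum_mul, Finset.sum_comm]
    have : ∑ l, ∑ k, t l x * fderiv ℝ (q l k i j) x (b k) = 0 := by
      refine Finset.sum_eq_zero fun l _ => ?_
      rw [← Finset.mul_sum]
      have h4 : ∑ k, fderiv ℝ (q l k i j) x (b k) = 0 := by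
        have h5 := hd l i j
        simp only [ha l _ i j]
        rw [Finset.sum_neg_distrib, h5, neg_zero]
      rw [h4, mul_zero]
    rw [this, zero_mul]
  have h4 : ∑ k, ∑ i, ∑ j, (∑ l, fderiv ℝ (t l) x (b k) * q l k i j x) * β i j x =
      ∑ i, ∑ j, (∑ l, ∑ k, fderiv ℝ (t l) x (b k) * q l k i j x) * β i j x := by
    rw [Finset.sum_comm]
    refine Finset.sum_congr rfl fun i _ => ?_
    rw [Finset.sum_comm]
    refine Finset.sum_congr rfl fun j _ => ?_
    rw [← Finset.sum_mul, Finset.sum_comm]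
  rw [h3, h4]
  ring

/-- the divergence of the second vector field -/
lemma div_V2 (b : OrthonormalBasis ι ℝ E) {x : E} {ρ : E → ℝ} {q : ι → ι → ι → ι → E → ℝ}
    {H : ι → ι → ι → E → ℝ} (hρ : DifferentiableAt ℝ ρ x)
    (hq : ∀ l k i j, DifferentiableAt ℝ (q l k i j) x) (hH : ∀ k i j, DifferentiableAt ℝ (H k i j) x)
    (hd : ∀ k i j, ∑ l, fderiv ℝ (q l k i j) x (b l) = 0) :
    ∑ l, fderiv ℝ (fun y => ρ y * ∑ k, ∑ i, ∑ j, q l k i j y * H k i j y) x (b l) =
      ∑ l, fderiv ℝ ρ x (b l) * ∑ k, ∑ i, ∑ j, q l k i j x * H k i j x +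
      ρ x * ∑ l, ∑ k, ∑ i, ∑ j, q l k i j x * fderiv ℝ (H k i j) x (b l) := by
  have h1 : ∀ l, fderiv ℝ (fun y => ρ y * ∑ k, ∑ i, ∑ j, q l k i j y * H k i j y) x (b l) =
      ρ x * ∑ k, ∑ i, ∑ j, (q l k i j x * fderiv ℝ (H k i j) x (b l) +
        H k i j x * fderiv ℝ (q l k i j) x (b l)) +
      (∑ k, ∑ i, ∑ j, q l k i j x * H k i j x) * fderiv ℝ ρ x (b l) := by
    intro l
    have h2 : HasFDerivAt (fun y => ρ y * ∑ k, ∑ i, ∑ j, q l k i j y * H k i j y) _ x :=
      hρ.hasFDerivAt.mul (HasFDerivAt.fun_sum fun k _ => HasFDerivAt.fun_sum fun i _ =>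
        HasFDerivAt.fun_sum fun j _ => (hq l k i j).hasFDerivAt.mul (hH k i j).hasFDerivAt)
    rw [h2.fderiv]
    simp only [FunLike.coe_sum, Finset.sum_apply, add_apply, smul_apply, smul_eq_mul]
  simp only [h1, Finset.sum_add_distrib, mul_add]
  have h3 : ∑ l, ρ x * ∑ k, ∑ i, ∑ j, H k i j x * fderiv ℝ (q l k i j) x (b l) = 0 := by
    rw [← Finset.mul_sum]
    have : ∑ l, ∑ k, ∑ i, ∑ j, H k i j x * fderiv ℝ (q l k i j) x (b l) = 0 := by
      rw [Finset.sum_comm]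
      refine Finset.sum_eq_zero fun k _ => ?_
      rw [Finset.sum_comm]
      refine Finset.sum_eq_zero fun i _ => ?_
      rw [Finset.sum_comm]
      refine Finset.sum_eq_zero fun j _ => ?_
      rw [← Finset.mul_sum, hd, mul_zero]
    rw [this, mul_zero]
  rw [h3, ← Finset.mul_sum]
  have h4 : ∑ l, (∑ k, ∑ i, ∑ j, q l k i j x * H k i j x) * fderiv ℝ ρ x (b l) =
      ∑ l, fderiv ℝ ρ x (b l) * ∑ k, ∑ i, ∑ j, q l k i j x * H k i j x :=
    Finset.sum_congr rfl fun l _ => mul_comm _ _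
  rw [h4]
  ring

end fields

section integral

omit [DecidableEq ι]
variable [MeasurableSpace E] [BorelSpace E]

/-- the divergence theorem for vector fields which vanish on the sphere -/
lemma int_div (hn : 0 < Module.finrank ℝ E) (b : OrthonormalBasis ι ℝ E) {V : ι → E → ℝ}
    (hV : ∀ k, ∀ x ∈ closedBall (0 : E) 1, ContDiffAt ℝ 1 (V k) x)
    (h0 : ∀ k, ∀ x ∈ sphere (0 : E) 1, V k x = 0) :
    ∫ x in closedBall (0 : E) 1, ∑ k, fderiv ℝ (V k) x (b k) = 0 := by
  rw [integral_finsetSum]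
  · exact Finset.sum_eq_zero fun k _ => int_deriv hn (hV k) (h0 k) (b k)
  · intro k _
    refine ContinuousOn.integrableOn_compact (isCompact_closedBall _ _) fun x hx => ?_
    exact (((hV k x hx).fderiv_right (m := 0) (by norm_num)).continuousAt.clm_apply
      continuousAt_const).continuousWithinAt

end integral

end Pool.Agent.H85.SK
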