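import Pool.Agent.H85.SK.Def

/-!
# Boundary rigidity of Kaehler metrics among hermitian metrics with `dd^c ω'` of one sign
-/

open Set Metric MeasureTheory Filter Topology
open scoped ContDiff NNReal RealInnerProductSpace

noncomputable section

set_option maxSynthPendingDepth 3

namespace Pool.Agent.H85.SK

open Pool.Agent.W9h56.BE Pool.Agent.W5h72.BR Pool.Agent.H85.KA

variable {E : Type*} [NormedAddCommGroup E] [InnerProductSpace ℝ E]
  {g g' : E → E →L[ℝ] E →L[ℝ] ℝ} {e L e' L' : E → E → E} {I : E → E →L[ℝ] E} {ρ : E → ℝ}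

lemma contDiff_fundI (hg : ContDiff ℝ ∞ g) (hI : ContDiff ℝ ∞ I) : ContDiff ℝ ∞ (fund g I) :=
  hg.clm_comp hI

lemma contDiff_dcFun (hI : ContDiff ℝ ∞ I) (hρ : ContDiff ℝ ∞ ρ) : ContDiff ℝ ∞ (dcFun I ρ) := by
  have h1 : ContDiff ℝ ∞ (fderiv ℝ ρ) := hρ.fderiv_right (by simp)
  exact (h1.clm_comp hI).neg

/-- a form with a potential is closed -/
lemma closed_pot (hg : ContDiff ℝ ∞ g) (hI : ContDiff ℝ ∞ I) (hP : IsPotential g I ρ) {x : E}
    (hx : x ∈ closedBall (0 : E) 1) (u v w : E) : d2 (fund g I) x u v w = 0 := by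
  have hθ := contDiff_dcFun hI hP.1
  set θ := dcFun I ρ with hθd
  have hθ1 : ContDiff ℝ ∞ (fderiv ℝ θ) := hθ.fderiv_right (by simp)
  have hF := contDiff_fundI hg hI
  have key : ∀ u v w, fderiv ℝ (fund g I) x u v w =
      fderiv ℝ (fderiv ℝ θ) x u v w - fderiv ℝ (fderiv ℝ θ) x u w v := by
    intro u v w
    have k0 : HasFDerivAt (fund g I) (fderiv ℝ (fund g I) x) x :=
      (hF.differentiable (by simp) x).hasFDerivAt
    have k0' : HasFDerivAt (fderiv ℝ θ) (fderiv ℝ (fderiv ℝ θ) x) x :=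
      (hθ1.differentiable (by simp) x).hasFDerivAt
    have k1 : HasFDerivAt (fun y => fund g I y v w - (fderiv ℝ θ y v w - fderiv ℝ θ y w v)) _ x :=
      ((k0.clm_apply (hasFDerivAt_const v x)).clm_apply (hasFDerivAt_const w x)).sub
      (((k0'.clm_apply (hasFDerivAt_const v x)).clm_apply (hasFDerivAt_const w x)).sub
      ((k0'.clm_apply (hasFDerivAt_const w x)).clm_apply (hasFDerivAt_const v x)))
    have k2 := fderiv_zero_of_ball hx k1 fun y hy => by
      rw [hP.2 y hy v w, sub_self]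
    have k3 := congrArg (fun T : E →L[ℝ] ℝ => T u) k2
    simp only [sub_apply, add_apply, ContinuousLinearMap.comp_apply, zero_apply, map_zero,
      ContinuousLinearMap.flip_apply, zero_add] at k3
    linarith
  have hs : ∀ u v, fderiv ℝ (fderiv ℝ θ) x u v = fderiv ℝ (fderiv ℝ θ) x v u := fun u v => by
    refine hθ.contDiffAt.isSymmSndFDerivAt ?_ u v
    rw [minSmoothness_of_isRCLikeNormedField]
    exact WithTop.coe_le_coe.2 le_top
  simp only [d2, key]
  rw [hs u v, hs w u, hs v w]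
  ring

/-- the derivative of the fundamental form is skew -/
lemma fund_skew (hg : ContDiff ℝ ∞ g) (hI : ContDiff ℝ ∞ I)
    (ha : ∀ x ∈ closedBall (0 : E) 1, ∀ v w, fund g I x v w = - fund g I x w v) {x : E}
    (hx : x ∈ closedBall (0 : E) 1) (u v w : E) :
    fderiv ℝ (fund g I) x u v w = - fderiv ℝ (fund g I) x u w v := by
  have hF := contDiff_fundI hg hI
  have k0 : HasFDerivAt (fund g I) (fderiv ℝ (fund g I) x) x :=
    (hF.differentiable (by simp) x).hasFDerivAt
  have k1 : HasFDerivAt (fun y => fund g I y v w + fund g I y w v) _ x :=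
    ((k0.clm_apply (hasFDerivAt_const v x)).clm_apply (hasFDerivAt_const w x)).add
    ((k0.clm_apply (hasFDerivAt_const w x)).clm_apply (hasFDerivAt_const v x))
  have k2 := fderiv_zero_of_ball hx k1 fun y hy => by
    rw [ha y hy v w]; ring
  have k3 := congrArg (fun T : E →L[ℝ] ℝ => T u) k2
  simp only [add_apply, ContinuousLinearMap.comp_apply, zero_apply, map_zero,
    ContinuousLinearMap.flip_apply, zero_add] at k3
  linarith

lemma d2_skew (hg : ContDiff ℝ ∞ g) (hI : ContDiff ℝ ∞ I)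
    (ha : ∀ x ∈ closedBall (0 : E) 1, ∀ v w, fund g I x v w = - fund g I x w v) {x : E}
    (hx : x ∈ closedBall (0 : E) 1) (u v w : E) : d2 (fund g I) x u v w = - d2 (fund g I) x u w v := by
  have h1 := fund_skew hg hI ha hx u v w
  have h2 := fund_skew hg hI ha hx v w u
  have h3 := fund_skew hg hI ha hx w u v
  simp only [d2]
  linarith

lemma contDiff_dc (hg : ContDiff ℝ ∞ g) (hI : ContDiff ℝ ∞ I) (u v w : E) :
    ContDiff ℝ ∞ fun y => dcForm I (fund g I) y u v w := by
  have hF := contDiff_fundI hg hI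
  have hF1 : ContDiff ℝ ∞ (fderiv ℝ (fund g I)) := hF.fderiv_right (by simp)
  have hIv : ∀ v : E, ContDiff ℝ ∞ fun y => I y v := fun v => hI.clm_apply contDiff_const
  simp only [dcForm, d2]
  exact ((((hF1.clm_apply (hIv u)).clm_apply (hIv v)).clm_apply (hIv w)).add
    (((hF1.clm_apply (hIv v)).clm_apply (hIv w)).clm_apply (hIv u))).add
    (((hF1.clm_apply (hIv w)).clm_apply (hIv u)).clm_apply (hIv v))

/-- the derivatives of the fundamental forms agree if the one-jets of the metrics agree -/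
lemma fund_jet (hg : ContDiff ℝ ∞ g) (hg' : ContDiff ℝ ∞ g') (hI : ContDiff ℝ ∞ I) {p : E}
    (h0 : g' p = g p) (h1 : fderiv ℝ g' p = fderiv ℝ g p) :
    fderiv ℝ (fund g' I) p = fderiv ℝ (fund g I) p := by
  have k : ∀ {g : E → E →L[ℝ] E →L[ℝ] ℝ}, ContDiff ℝ ∞ g → HasFDerivAt (fund g I) _ p :=
    fun {g} hg => (hg.differentiable (by simp) p).hasFDerivAt.clm_comp
      (hI.differentiable (by simp) p).hasFDerivAt
  rw [(k hg).fderiv, (k hg').fderiv, h0, h1]

variable {ι : Type*} [Fintype ι]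

section pointwise

variable [FiniteDimensional ℝ E]

omit [FiniteDimensional ℝ E] in
/-- the matrix of the inverse is skew -/
lemma Rf_facts {Om : E → E →L[ℝ] E} {x : E} (hu : IsUnit (Om x)) (hA : Anti (Om x)) :
    Anti (Rf Om x) ∧ (∀ v, Rf Om x (Om x v) = v) ∧ ∀ v, Om x (Rf Om x v) = v := by
  obtain ⟨u, hu⟩ := hu
  have hRx : Rf Om x = (↑u⁻¹ : E →L[ℝ] E) := by rw [Rf, ← hu]; exact Ring.inverse_unit u
  refine ⟨by rw [hRx]; exact anti_inv hA u hu, fun v => ?_, fun v => ?_⟩
  · rw [hRx, ← hu]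
    exact congrArg (fun T : E →L[ℝ] E => T v) u.inv_mul
  · rw [hRx, ← hu]
    exact congrArg (fun T : E →L[ℝ] E => T v) u.mul_inv

/-- contraction of the four-vector with the derivative of the primitive -/
lemma contr_x [DecidableEq ι] (b : OrthonormalBasis ι ℝ E) {Om : E → E →L[ℝ] E} {x : E}
    (hu : IsUnit (Om x)) (hA : Anti (Om x)) {T : ι → ι → ℝ}
    (hT : ∀ l k, T l k - T k l = (inner ℝ (b l) (Om x (b k)) : ℝ)) (i j : ι) :
    ∑ l, ∑ k, T l k * qf b Om l k i j x =
      -(((Fintype.card ι : ℝ) - 2) / 2 * (pf (Om x) * rm b (Rf Om x) i j)) := by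
  obtain ⟨hRa, hRO, hOR⟩ := Rf_facts hu hA
  have hR := rm_anti b hRa
  have hO : ∀ i j, (inner ℝ (b i) (Om x (b j)) : ℝ) = - inner ℝ (b j) (Om x (b i)) := fun i j =>
    rm_anti b hA i j
  have hinv : ∀ i j, ∑ l, rm b (Rf Om x) i l * (inner ℝ (b l) (Om x (b j)) : ℝ) =
      if i = j then 1 else 0 := by
    intro i j
    have h1 : ∑ l, rm b (Rf Om x) i l * (inner ℝ (b l) (Om x (b j)) : ℝ) =
        inner ℝ (b i) (Rf Om x (Om x (b j))) := by
      conv_rhs => rw [← sum_vec b (Om x (b j))]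
      rw [map_sum, inner_sum]
      refine Finset.sum_congr rfl fun l _ => ?_
      rw [map_smul, inner_smul_right, rm]
      ring
    rw [h1, hRO]
    exact orthonormal_iff_ite.1 b.orthonormal i j
  have h1 := contr (m := pf (Om x)) (R := rm b (Rf Om x))
    (O := fun l k => (inner ℝ (b l) (Om x (b k)) : ℝ)) hR hO hinv i j
  have h2 : ∑ l, ∑ k, T k l * qf b Om l k i j x = - ∑ l, ∑ k, T l k * qf b Om l k i j x := by
    rw [Finset.sum_comm, ← Finset.sum_neg_distrib]
    refine Finset.sum_congr rfl fun l _ => ?_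
    rw [← Finset.sum_neg_distrib]
    refine Finset.sum_congr rfl fun k _ => ?_
    rw [qf, qf, qq_swap hR k l]; ring
  have h3 : ∑ l, ∑ k, (inner ℝ (b l) (Om x (b k)) : ℝ) * qq (pf (Om x)) (rm b (Rf Om x)) l k i j =
      ∑ l, ∑ k, T l k * qf b Om l k i j x - ∑ l, ∑ k, T k l * qf b Om l k i j x := by
    rw [← Finset.sum_sub_distrib]
    refine Finset.sum_congr rfl fun l _ => ?_
    rw [← Finset.sum_sub_distrib]
    refine Finset.sum_congr rfl fun k _ => ?_
    rw [← hT l k, qf]; ring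
  rw [h3, h2] at h1
  linarith

omit [FiniteDimensional ℝ E] in
/-- the trace of the product -/
lemma tr_arr (b : OrthonormalBasis ι ℝ E) {Om : E → E →L[ℝ] E} {x : E} (B : E →L[ℝ] E) :
    tr b (wt Om x ∘L B) = ∑ i, ∑ j, pf (Om x) * rm b (Rf Om x) i j * inner ℝ (B (b i)) (b j) := by
  rw [tr]
  refine Finset.sum_congr rfl fun i _ => ?_
  rw [ContinuousLinearMap.comp_apply]
  conv_lhs => rw [← sum_vec b (B (b i))]
  rw [map_sum, inner_sum]
  refine Finset.sum_congr rfl fun j _ => ?_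
  rw [map_smul, inner_smul_right, rm, wt, smul_apply, inner_smul_right, real_inner_comm, Rf]
  ring

end pointwise

end Pool.Agent.H85.SK
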