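import Pool.Agent.H85.SK.Arr
import Pool.Agent.H85.KA.Main

/-!
# The four-vector of a closed two-form: identities at a point
-/

open Set Metric MeasureTheory Filter Topology
open scoped ContDiff NNReal RealInnerProductSpace

noncomputable section

set_option maxSynthPendingDepth 3

namespace Pool.Agent.H85.SK

open Pool.Agent.W9h56.BE Pool.Agent.W5h72.BR Pool.Agent.H85.KA

variable {E : Type*} [NormedAddCommGroup E] [InnerProductSpace ℝ E] {ι : Type*} [Fintype ι]

/-- trilinear functions -/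
structure Tri (η : E → E → E → ℝ) : Prop where
  l1 : ∀ v w, IsLinearMap ℝ fun u => η u v w
  l2 : ∀ u w, IsLinearMap ℝ fun v => η u v w
  l3 : ∀ u v, IsLinearMap ℝ fun w => η u v w

lemma lin_sum {f : E → ℝ} (hf : IsLinearMap ℝ f) (a : ι → ℝ) (v : ι → E) :
    f (∑ k, a k • v k) = ∑ k, a k * f (v k) := by
  have h1 := map_sum hf.mk' (fun k => a k • v k) Finset.univ
  simp only [IsLinearMap.mk'_apply] at h1
  rw [h1]
  exact Finset.sum_congr rfl fun k _ => hf.map_smul (a k) (v k)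

/-- the matrix of an operator -/
def rm (b : OrthonormalBasis ι ℝ E) (R : E →L[ℝ] E) (i j : ι) : ℝ := inner ℝ (b i) (R (b j))

lemma rm_anti (b : OrthonormalBasis ι ℝ E) {R : E →L[ℝ] E} (hR : Anti R) (i j : ι) :
    rm b R i j = - rm b R j i := by
  rw [rm, rm, real_inner_comm, hR]

lemma sum_vec (b : OrthonormalBasis ι ℝ E) (v : E) : ∑ i, inner ℝ (b i) v • b i = v :=
  b.sum_repr' v

/-- contraction of a trilinear form -/
lemma K (b : OrthonormalBasis ι ℝ E) {m : ℝ} {R : E →L[ℝ] E} (hR : Anti R) {η : E → E → E → ℝ}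
    (hη : Tri η) (hc : ∀ u v w, η u v w = η v w u) (t : E) :
    ∑ l, inner ℝ (b l) t * ∑ k, ∑ i, ∑ j, qq m (rm b R) l k i j * η (b k) (b i) (b j) =
      -(3 * (m * ∑ j, η (R t) (R (b j)) (b j))) := by
  have h1 : ∀ l, ∑ k, ∑ i, ∑ j, qq m (rm b R) l k i j * η (b k) (b i) (b j) =
      3 * (m * ∑ k, rm b R l k * ∑ j, η (b k) (R (b j)) (b j)) := by
    intro l
    rw [sum_qq l (H := fun k i j => η (b k) (b i) (b j)) fun k i j => hc _ _ _]
    congr 2
    refine Finset.sum_congr rfl fun k _ => ?_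
    rw [Finset.sum_comm, Finset.mul_sum]
    refine Finset.sum_congr rfl fun j _ => ?_
    have h2 := lin_sum (hη.l2 (b k) (b j)) (fun i => inner ℝ (b i) (R (b j))) b
    rw [sum_vec] at h2
    rw [h2, Finset.mul_sum]
    refine Finset.sum_congr rfl fun i _ => ?_
    rw [rm, rm]; ring
  simp only [h1]
  have h3 : ∀ k, ∑ l, inner ℝ (b l) t * rm b R l k = - inner ℝ (b k) (R t) := by
    intro k
    have : ∑ l, inner ℝ (b l) t * rm b R l k = inner ℝ t (R (b k)) := by
      rw [← KA.sum_inner b]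
      refine Finset.sum_congr rfl fun l _ => ?_
      rw [rm, real_inner_comm]
    rw [this, real_inner_comm, hR]
  have h4 : ∀ S : ι → ℝ, ∑ l, inner ℝ (b l) t * (3 * (m * ∑ k, rm b R l k * S k)) =
      3 * (m * ∑ k, (∑ l, inner ℝ (b l) t * rm b R l k) * S k) := by
    intro S
    simp only [Finset.sum_mul, Finset.mul_sum]
    rw [Finset.sum_comm]
    refine Finset.sum_congr rfl fun k _ => Finset.sum_congr rfl fun l _ => by ring
  rw [h4 fun k => ∑ j, η (b k) (R (b j)) (b j)]
  simp only [h3, Finset.mul_sum]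
  have h5 : ∀ j, η (R t) (R (b j)) (b j) = ∑ k, inner ℝ (b k) (R t) * η (b k) (R (b j)) (b j) := by
    intro j
    have h2 := lin_sum (hη.l1 (R (b j)) (b j)) (fun k => inner ℝ (b k) (R t)) b
    rwa [sum_vec] at h2
  simp only [h5, Finset.mul_sum, ← Finset.sum_neg_distrib]
  rw [Finset.sum_comm]
  refine Finset.sum_congr rfl fun j _ => Finset.sum_congr rfl fun k _ => by ring

section invariance

variable {Om R A : E →L[ℝ] E}

/-- `R` and `A` -/
lemma R_adj (hRO : ∀ v, R (Om v) = v) (hOR : ∀ v, Om (R v) = v) (hsq : ∀ v, A (A v) = -v)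
    (ho : ∀ v w, inner ℝ (Om (A v)) (A w) = (inner ℝ (Om v) w : ℝ)) {r t : E}
    (ht : ∀ z, inner ℝ t z = -(inner ℝ r (A z) : ℝ)) : R t = A (R r) := by
  have h1 : Om (A (R r)) = t := by
    refine ext_inner_right ℝ fun z => ?_
    have h2 := ho (R r) (-(A z))
    rw [map_neg, hsq, neg_neg, hOR] at h2
    rw [h2, ht, inner_neg_right]
  rw [← h1, hRO]

/-- the contraction is invariant -/
lemma inv_sum (b : OrthonormalBasis ι ℝ E) (hRO : ∀ v, R (Om v) = v) (hOR : ∀ v, Om (R v) = v)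
    (hsq : ∀ v, A (A v) = -v)
    (ho : ∀ v w, inner ℝ (Om (A v)) (A w) = (inner ℝ (Om v) w : ℝ)) {f : E → E → ℝ}
    (h1 : ∀ w, IsLinearMap ℝ fun v => f v w) (h2 : ∀ v, IsLinearMap ℝ fun w => f v w) :
    ∑ j, f (A (R (b j))) (A (b j)) = ∑ j, f (R (b j)) (b j) := by
  have k1 : ∀ j, A (R (b j)) = ∑ k, (-(inner ℝ (b j) (A (b k)) : ℝ)) • R (b k) := by
    intro j
    set t : E := ∑ k, (-(inner ℝ (b j) (A (b k)) : ℝ)) • b k with ht
    have h3 : R t = A (R (b j)) := R_adj hRO hOR hsq ho fun z => by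
      conv_rhs => rw [← sum_vec b z]
      rw [ht, _root_.sum_inner, map_sum, inner_sum, ← Finset.sum_neg_distrib]
      refine Finset.sum_congr rfl fun k _ => ?_
      rw [inner_smul_left, map_smul, inner_smul_right]
      simp only [RCLike.conj_to_real]
      ring
    rw [← h3, ht, map_sum]
    exact Finset.sum_congr rfl fun k _ => map_smul _ _ _
  have k2 : ∀ j, f (A (R (b j))) (A (b j)) =
      ∑ k, (-(inner ℝ (b j) (A (b k)) : ℝ)) * f (R (b k)) (A (b j)) := by
    intro j
    rw [k1 j]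
    exact lin_sum (h1 (A (b j))) _ _
  simp only [k2]
  rw [Finset.sum_comm]
  refine Finset.sum_congr rfl fun k _ => ?_
  have k3 := lin_sum (h2 (R (b k))) (fun j => (inner ℝ (b j) (A (b k)) : ℝ)) (fun j => A (b j))
  have k4 : ∑ j, (inner ℝ (b j) (A (b k)) : ℝ) • A (b j) = - b k := by
    have : ∑ j, (inner ℝ (b j) (A (b k)) : ℝ) • A (b j) = A (A (b k)) := by
      conv_rhs => rw [← sum_vec b (A (b k))]
      rw [map_sum]
      exact Finset.sum_congr rfl fun j _ => (map_smul _ _ _).symm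
    rw [this, hsq]
  rw [k4] at k3
  have k5 : f (R (b k)) (-(b k)) = - f (R (b k)) (b k) := (h2 (R (b k))).map_neg _
  rw [k5] at k3
  simp only [neg_mul, Finset.sum_neg_distrib, ← k3, neg_neg]

end invariance

end Pool.Agent.H85.SK
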