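import Pool.Agent.H85.SK.Pt

/-!
# The four-vector of a closed two-form: invariance and positivity
-/

open Set Metric MeasureTheory Filter Topology
open scoped ContDiff NNReal RealInnerProductSpace

noncomputable section

set_option maxSynthPendingDepth 3

namespace Pool.Agent.H85.SK

open Pool.Agent.W9h56.BE Pool.Agent.W5h72.BR Pool.Agent.H85.KA

variable {E : Type*} [NormedAddCommGroup E] [InnerProductSpace ℝ E] {ι : Type*} [Fintype ι]
  {Om R A : E →L[ℝ] E}

/-- the almost complex structure is moved from the vector to the form -/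
theorem swap_I (b : OrthonormalBasis ι ℝ E) {m : ℝ} (hR : Anti R) (hRO : ∀ v, R (Om v) = v)
    (hOR : ∀ v, Om (R v) = v) (hsq : ∀ v, A (A v) = -v)
    (ho : ∀ v w, inner ℝ (Om (A v)) (A w) = (inner ℝ (Om v) w : ℝ)) {η : E → E → E → ℝ}
    (hη : Tri η) (hc : ∀ u v w, η u v w = η v w u) {r t : E}
    (ht : ∀ z, inner ℝ t z = -(inner ℝ r (A z) : ℝ)) :
    ∑ l, inner ℝ (b l) t * ∑ k, ∑ i, ∑ j, qq m (rm b R) l k i j * η (b k) (b i) (b j) =
      ∑ l, inner ℝ (b l) r * ∑ k, ∑ i, ∑ j, qq m (rm b R) l k i j *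
        η (A (b k)) (A (b i)) (A (b j)) := by
  have hη' : Tri fun u v w => η (A u) (A v) (A w) := by
    refine ⟨fun v w => ⟨fun x y => ?_, fun c x => ?_⟩, fun u w => ⟨fun x y => ?_, fun c x => ?_⟩,
      fun u v => ⟨fun x y => ?_, fun c x => ?_⟩⟩
    · rw [map_add]; exact (hη.l1 _ _).map_add _ _
    · rw [map_smul]; exact (hη.l1 _ _).map_smul _ _
    · rw [map_add]; exact (hη.l2 _ _).map_add _ _
    · rw [map_smul]; exact (hη.l2 _ _).map_smul _ _
    · rw [map_add]; exact (hη.l3 _ _).map_add _ _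
    · rw [map_smul]; exact (hη.l3 _ _).map_smul _ _
  rw [K b hR hη hc t, K b hR hη' (fun u v w => hc _ _ _) r, R_adj hRO hOR hsq ho ht,
    inv_sum b hRO hOR hsq ho (f := fun v w => η (A (R r)) v w) (fun w => hη.l2 _ w)
      (fun v => hη.l3 _ v)]

/-- four-linear functions -/
structure Quad (D : E → E → E → E → ℝ) : Prop where
  l1 : ∀ v w z, IsLinearMap ℝ fun u => D u v w z
  l2 : ∀ u w z, IsLinearMap ℝ fun v => D u v w z
  l3 : ∀ u v z, IsLinearMap ℝ fun w => D u v w z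
  l4 : ∀ u v w, IsLinearMap ℝ fun z => D u v w z

/-- the contraction in a frame -/
lemma sum_frame (b : OrthonormalBasis ι ℝ E) {B : E →L[ℝ] E →L[ℝ] ℝ} {F : E ≃ₗ[ℝ] E}
    (hF : ∀ v w, B (F v) (F w) = inner ℝ v w) (hRO : ∀ v, R (Om v) = v)
    (hOm : ∀ v w, inner ℝ (Om v) w = B (A v) w) (hsq : ∀ v, A (A v) = -v) {f : E → E → ℝ}
    (h1 : ∀ w, IsLinearMap ℝ fun v => f v w) (h2 : ∀ v, IsLinearMap ℝ fun w => f v w) :
    ∑ k, f (R (b k)) (b k) = - ∑ a, f (A (F (b a))) (F (b a)) := by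
  have k1 : ∀ z : E, R z = ∑ a, (-(inner ℝ z (F (b a)) : ℝ)) • A (F (b a)) := by
    intro z
    set s : E := ∑ a, (inner ℝ z (F (b a)) : ℝ) • b a with hs
    have hsv : ∀ v, inner ℝ s v = (inner ℝ z (F v) : ℝ) := by
      intro v
      conv_rhs => rw [← sum_vec b v]
      rw [hs, _root_.sum_inner, map_sum, inner_sum]
      refine Finset.sum_congr rfl fun k _ => ?_
      rw [inner_smul_left, map_smul, inner_smul_right]
      simp only [RCLike.conj_to_real]
      ring
    have h3 : Om (-(A (F s))) = z := by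
      refine ext_inner_right ℝ fun w => ?_
      rw [hOm, map_neg, hsq, neg_neg]
      have h4 := hF s (F.symm w)
      rw [F.apply_symm_apply] at h4
      rw [h4, hsv, F.apply_symm_apply]
    have h5 : R z = -(A (F s)) := by rw [← h3, hRO]
    rw [h5, hs, map_sum, map_sum, ← Finset.sum_neg_distrib]
    refine Finset.sum_congr rfl fun a _ => ?_
    rw [map_smul, map_smul, neg_smul]
  have k2 : ∀ k, f (R (b k)) (b k) = ∑ a, (-(inner ℝ (b k) (F (b a)) : ℝ)) * f (A (F (b a))) (b k) := by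
    intro k
    rw [k1 (b k)]
    exact lin_sum (h1 (b k)) _ _
  simp only [k2]
  rw [Finset.sum_comm, ← Finset.sum_neg_distrib]
  refine Finset.sum_congr rfl fun a _ => ?_
  have k3 := lin_sum (h2 (A (F (b a)))) (fun k => (inner ℝ (b k) (F (b a)) : ℝ)) b
  rw [sum_vec] at k3
  rw [k3, ← Finset.sum_neg_distrib]
  exact Finset.sum_congr rfl fun k _ => by ring

/-- the full contraction of a four-form in a frame -/
theorem four_frame (b : OrthonormalBasis ι ℝ E) {m : ℝ} {B : E →L[ℝ] E →L[ℝ] ℝ} {F : E ≃ₗ[ℝ] E}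
    (hF : ∀ v w, B (F v) (F w) = inner ℝ v w) (hRO : ∀ v, R (Om v) = v)
    (hOm : ∀ v w, inner ℝ (Om v) w = B (A v) w) (hsq : ∀ v, A (A v) = -v)
    {D : E → E → E → E → ℝ} (hD : Quad D) (hc : ∀ l k i j, D l k i j = D l i j k) :
    ∑ l, ∑ k, ∑ i, ∑ j, qq m (rm b R) l k i j * D (b l) (b k) (b i) (b j) =
      3 * (m * ∑ a, ∑ c, D (A (F (b a))) (F (b a)) (A (F (b c))) (F (b c))) := by
  have h1 : ∀ l, ∑ k, ∑ i, ∑ j, qq m (rm b R) l k i j * D (b l) (b k) (b i) (b j) =
      3 * (m * ∑ k, rm b R l k * ∑ j, D (b l) (b k) (R (b j)) (b j)) := by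
    intro l
    rw [sum_qq l (H := fun k i j => D (b l) (b k) (b i) (b j)) fun k i j => hc _ _ _ _]
    congr 2
    refine Finset.sum_congr rfl fun k _ => ?_
    rw [Finset.sum_comm, Finset.mul_sum]
    refine Finset.sum_congr rfl fun j _ => ?_
    have h2 := lin_sum (hD.l3 (b l) (b k) (b j)) (fun i => inner ℝ (b i) (R (b j))) b
    rw [sum_vec] at h2
    rw [h2, Finset.mul_sum]
    refine Finset.sum_congr rfl fun i _ => ?_
    rw [rm, rm]; ring
  have h3 : ∀ k, ∑ l, rm b R l k * ∑ j, D (b l) (b k) (R (b j)) (b j) =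
      ∑ j, D (R (b k)) (b k) (R (b j)) (b j) := by
    intro k
    simp only [Finset.mul_sum]
    rw [Finset.sum_comm]
    refine Finset.sum_congr rfl fun j _ => ?_
    have h2 := lin_sum (hD.l1 (b k) (R (b j)) (b j)) (fun l => inner ℝ (b l) (R (b k))) b
    rw [sum_vec] at h2
    exact h2.symm
  have h4 : ∑ l, 3 * (m * ∑ k, rm b R l k * ∑ j, D (b l) (b k) (R (b j)) (b j)) =
      3 * (m * ∑ k, ∑ j, D (R (b k)) (b k) (R (b j)) (b j)) := by
    rw [← Finset.mul_sum, ← Finset.mul_sum, Finset.sum_comm]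
    simp only [h3]
  simp only [h1]
  rw [h4]
  congr 2
  have h5 : ∀ k, ∑ j, D (R (b k)) (b k) (R (b j)) (b j) =
      - ∑ c, D (R (b k)) (b k) (A (F (b c))) (F (b c)) := fun k =>
    sum_frame b hF hRO hOm hsq (f := fun v w => D (R (b k)) (b k) v w)
      (fun w => hD.l3 _ _ w) (fun v => hD.l4 _ _ v)
  simp only [h5, Finset.sum_neg_distrib]
  rw [Finset.sum_comm]
  have h6 : ∀ c, ∑ k, D (R (b k)) (b k) (A (F (b c))) (F (b c)) =
      - ∑ a, D (A (F (b a))) (F (b a)) (A (F (b c))) (F (b c)) := fun c =>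
    sum_frame b hF hRO hOm hsq (f := fun v w => D v w (A (F (b c))) (F (b c)))
      (fun w => hD.l1 w _ _) (fun v => hD.l2 v _ _)
  simp only [h6, Finset.sum_neg_distrib, neg_neg]
  rw [Finset.sum_comm]

end Pool.Agent.H85.SK
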